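import Mathlib
import Pool.Agent.MP_761c50_ag.SS.Defs

attribute [-instance] AddMonoidAlgebra.distribMulAction
  ContinuousSemilinearMapClass.toSemilinearMapClass IsArtinianRing.instDecompositionMonoid
  MonTypeEquivalenceMon.monMonoid CoalgHomClass.toSemilinearMapClass AddMonoidAlgebra.distribSMul
  RingHomClass.toLinearMapClassNNRat SemilinearIsometryClass.toSemilinearMapClass
  RingHomClass.toLinearMapClassRat instNonUnitalAlgHomClassOfNonUnitalAlgEquivClass
  IsAffineAddMonoid.toIsCancelAdd BialgHomClass.toAlgHomClass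
  CommMonTypeEquivalenceCommMon.commMonCommMonoid
  NonUnitalAlgHomClass.instSemilinearMapClassOfNonUnitalAlgSemiHomClassToMonoidHomRingHom
  RKHS.instFunLike Group.IsPerfect.subsingleton_of_isMulCommutative AlgHomClass.linearMapClass
  BialgHomClass.toMonoidHomClass SemilatticeInf.toPartialOrder
  SemilinearEquivClass.instSemilinearMapClass IsFormallyReal.instIsReduced
  NonUnitalAlgHomClass.toNonUnitalRingHomClass
  MulSemiringActionSemiHomClass.toDistribMulActionSemiHomClass IsCancelMul.toIsRightCancelMul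
  CentroidHomClass.toAddMonoidHomClass ValuationClass.toMonoidWithZeroHomClass littleWedderburn
  NumberField.instFiniteDimensional instIsRightCancelAddOfAddRightReflectLE
  CategoryTheory.Limits.Concrete.instUniqueToTypeTerminal MulCharClass.toMonoidHomClass
  GrpTypeEquivalenceGrp.grpGroup TestFunctionClass.toDFunLike
  MulDistribMulActionSemiHomClass.toMonoidHomClass AlgEquivClass.toAlgHomClass
  Submodule.IsLattice.finite LinearOrderedAddCommGroupWithTop.toSubNegMonoid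
  SeminormClass.toAddGroupSeminormClass ContDiffMapSupportedInClass.toDFunLike
  LieAdmissibleRing.toNonUnitalNonAssocRing SubmonoidClass.toOneMemClass
  RightCancelSemigroup.toIsRightCancelMul

-- part MP_761c50_ag.NonCont
section

/-!
# `B₃` plus at least three lines through a quadruple point: `f ∈ J^(3)`, `f ∉ J²`

Variables `w = X 0`, `x = X 1`, `u = X 2`.
-/

namespace MP761c50.NonCont

open MvPolynomial

abbrev R := MvPolynomial (Fin 3) ℂ

noncomputable section

/-- the five lines off `P = (1,0,0)` -/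
def G : R := X 0 * (X 0 - X 1) * (X 0 + X 1) * (X 0 - X 2) * (X 0 + X 2)

/-- the extra lines through `P` -/
def F1 (Λ : Finset ℂ) : R := ∏ ρ ∈ Λ, (X 1 - C ρ * X 2)

def cc : R := (X 1 ^ 2 - X 2 ^ 2) ^ 2 + X 0 ^ 2 * (X 1 ^ 2 + X 2 ^ 2) - 2 * X 0 ^ 4

def hh (Λ : Finset ℂ) : R :=
  3 * X 0 * (X 1 ^ (Λ.card - 2) + C (∏ ρ ∈ Λ, (-ρ)) * X 2 ^ (Λ.card - 2)) * G + cc * F1 Λ

/-- the witness -/
def ff (Λ : Finset ℂ) : R := G * F1 Λ * hh Λ

/-- restriction to the line through `v`, parametrised by `t ↦ t v` -/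
def L (v : Fin 3 → ℂ) : R →ₐ[ℂ] Polynomial ℂ :=
  aeval fun i => Polynomial.C (v i) * Polynomial.X

@[simp] lemma L_X (v : Fin 3 → ℂ) (i : Fin 3) :
    L v (X i) = Polynomial.C (v i) * Polynomial.X := by simp [L]

@[simp] lemma L_C (v : Fin 3 → ℂ) (a : ℂ) : L v (C a) = Polynomial.C a := by simp [L]

lemma L_monomial (v : Fin 3 → ℂ) (m : Fin 3 →₀ ℕ) (a : ℂ) :
    L v (monomial m a) = Polynomial.C (a * (v 0 ^ m 0 * v 1 ^ m 1 * v 2 ^ m 2)) *
      Polynomial.X ^ (m 0 + m 1 + m 2) := by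
  rw [L, aeval_monomial, Finsupp.prod_fintype _ _ (by simp), Fin.prod_univ_three]
  simp only [Polynomial.algebraMap_apply, Algebra.algebraMap_self, RingHom.id_apply, map_mul,
    map_pow]
  ring

/-- the twelve singular points of `B₃` other than `P` -/
def Z : List (Fin 3 → ℂ) :=
  [![0, 0, 1], ![0, 1, 0], ![1, 0, 1], ![-1, 0, 1], ![1, 1, 0], ![-1, 1, 0], ![0, 1, 1],
    ![0, -1, 1], ![1, 1, 1], ![1, -1, 1], ![-1, 1, 1], ![-1, -1, 1]]

lemma cb_id (a : R) :
    4 * ((L ![1, 0, 0] a).coeff 4 + (L ![0, 0, 1] a).coeff 4 + (L ![0, 1, 0] a).coeff 4)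
      - 2 * ((L ![1, 0, 1] a).coeff 4 + (L ![-1, 0, 1] a).coeff 4 + (L ![1, 1, 0] a).coeff 4
        + (L ![-1, 1, 0] a).coeff 4 + (L ![0, 1, 1] a).coeff 4 + (L ![0, -1, 1] a).coeff 4)
      + ((L ![1, 1, 1] a).coeff 4 + (L ![1, -1, 1] a).coeff 4 + (L ![-1, 1, 1] a).coeff 4
        + (L ![-1, -1, 1] a).coeff 4) = 0 := by
  induction a using MvPolynomial.induction_on' with
  | monomial m a =>
    simp only [L_monomial, Polynomial.coeff_C_mul, Polynomial.coeff_X_pow]
    generalize m 0 = i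
    generalize m 1 = j
    generalize m 2 = k
    by_cases h : 4 = i + j + k
    · have hi : i ≤ 4 := by omega
      have hj : j ≤ 4 := by omega
      have hk : k ≤ 4 := by omega
      interval_cases i <;> interval_cases j <;> interval_cases k <;> first
        | omega
        | (simp only [Fin.isValue, Matrix.cons_val_zero, pow_zero, Matrix.cons_val_one, mul_one, Matrix.cons_val, ne_eq, OfNat.ofNat_ne_zero, not_false_eq_true, zero_pow, mul_zero, add_zero, zero_add, ↓ reduceIte, one_pow, pow_one, Nat.reduceAdd, mul_neg, add_neg_cancel, sub_self, even_two, Even.neg_pow, zero_sub, one_mul, add_neg_cancel_right, neg_zero, neg_neg, neg_add_cancel, zero_mul, add_neg_cancel_comm, neg_mul, neg_eq_zero, mul_eq_zero, false_or]; try ring)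
    · simp only [Fin.isValue, Matrix.cons_val_zero, one_pow, Matrix.cons_val_one, one_mul, Matrix.cons_val, h, ↓ reduceIte, mul_zero, mul_one, add_zero, sub_self]
  | add p q hp hq =>
    simp only [map_add, Polynomial.coeff_add]
    linear_combination hp + hq

/-- Cayley–Bacharach for the thirteen points of `B₃`. -/
lemma cb (a : R) (ha : ∀ z ∈ Z, L z a = 0) : Polynomial.X ^ 5 ∣ L ![1, 0, 0] a := by
  rw [Polynomial.X_pow_dvd_iff]
  intro d hd
  have key := cb_id (X 0 ^ (4 - d) * a)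
  have hz : ∀ z ∈ Z, L z (X 0 ^ (4 - d) * a) = 0 := fun z hz => by rw [map_mul, ha z hz, mul_zero]
  simp only [Z, List.mem_cons, List.not_mem_nil, or_false, forall_eq_or_imp, forall_eq] at hz
  obtain ⟨h1, h2, h3, h4, h5, h6, h7, h8, h9, h10, h11, h12⟩ := hz
  rw [h1, h2, h3, h4, h5, h6, h7, h8, h9, h10, h11, h12] at key
  have e : (L ![1, 0, 0] (X 0 ^ (4 - d) * a)).coeff 4 = (L ![1, 0, 0] a).coeff d := by
    rw [map_mul, map_pow, L_X]
    have : (4 : ℕ) = d + (4 - d) := by omega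
    simp only [Matrix.cons_val_zero, map_one, one_mul]
    conv_lhs => rw [this]
    rw [show d + (4 - d) - d = 4 - d by omega, Polynomial.coeff_X_pow_mul]
  rw [e] at key
  simpa using key

lemma ker_L (s ρ : ℂ) (g : R) (hg : L ![s, ρ, 1] g = 0) :
    ∃ a b : R, g = (X 1 - C ρ * X 2) * a + (X 0 - C s * X 2) * b := by
  set I : Ideal R := Ideal.span {X 1 - C ρ * X 2, X 0 - C s * X 2} with hI
  have e : Ideal.Quotient.mkₐ ℂ I = (Ideal.Quotient.mkₐ ℂ I).comp
      ((Polynomial.aeval (X 2 : R)).comp (L ![s, ρ, 1])) := by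
    apply MvPolynomial.algHom_ext
    intro i
    simp only [AlgHom.comp_apply, L_X, map_mul, Polynomial.aeval_C, Polynomial.aeval_X,
      Ideal.Quotient.mkₐ_eq_mk, algebraMap_eq]
    rw [← map_mul, Ideal.Quotient.eq]
    fin_cases i
    · exact Ideal.subset_span (by simp only [Fin.isValue, Fin.zero_eta, Matrix.cons_val_zero, Set.mem_insert_iff, Set.mem_singleton_iff, or_true])
    · exact Ideal.subset_span (by simp only [Fin.isValue, Fin.mk_one, Matrix.cons_val_one, Matrix.cons_val_zero, Set.mem_insert_iff, Set.mem_singleton_iff, true_or])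
    · simp
  have h0 : Ideal.Quotient.mkₐ ℂ I g = 0 := by
    rw [e]; simp [hg]
  rw [Ideal.Quotient.mkₐ_eq_mk, Ideal.Quotient.eq_zero_iff_mem, hI, Ideal.mem_span_pair] at h0
  obtain ⟨a, b, h⟩ := h0
  exact ⟨a, b, by rw [← h]; ring⟩

lemma one_plane (ρ : ℂ) (S : Finset ℂ) (g : R) (hg : ∀ s ∈ S, L ![s, ρ, 1] g = 0) :
    ∃ a b : R, g = (X 1 - C ρ * X 2) * a + (∏ s ∈ S, (X 0 - C s * X 2)) * b := by
  classical
  induction S using Finset.induction_on generalizing g with
  | empty => exact ⟨0, g, by simp⟩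
  | insert s S hs ih =>
    obtain ⟨a, b, h⟩ := ker_L s ρ g (hg s (by simp))
    obtain ⟨a', b', h'⟩ := ih b (fun s' hs' => by
      have h1 := hg s' (by simp [hs'])
      rw [h] at h1
      have hne : s' - s ≠ 0 := sub_ne_zero.2 (fun e => hs (e ▸ hs'))
      have h2 : Polynomial.C (s' - s) * Polynomial.X * L ![s', ρ, 1] b = 0 := by
        rw [← h1]; simp; left; ring
      rcases mul_eq_zero.1 h2 with h3 | h3
      · exact absurd h3 (mul_ne_zero (Polynomial.C_ne_zero.2 hne) Polynomial.X_ne_zero)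
      · exact h3)
    refine ⟨a + (X 0 - C s * X 2) * a', b', ?_⟩
    rw [Finset.prod_insert hs, h, h']; ring

lemma one_plane_G (ρ : ℂ) (h0 : ρ ≠ 0) (h1 : ρ ≠ 1) (h2 : ρ ≠ -1) (g : R)
    (hg : ∀ s : ℂ, L ![s, ρ, 1] G = 0 → L ![s, ρ, 1] g = 0) :
    ∃ a b : R, g = (X 1 - C ρ * X 2) * a + G * b := by
  classical
  have n1 : (0 : ℂ) ∉ ({ρ, -ρ, 1, -1} : Finset ℂ) := by
    simp only [Finset.mem_insert, h0.symm, zero_eq_neg, h0, zero_ne_one, Finset.mem_singleton, one_ne_zero, or_self, not_false_eq_true]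
  have n2 : ρ ∉ ({-ρ, 1, -1} : Finset ℂ) := by
    simp only [Finset.mem_insert, Finset.mem_singleton, not_or]
    exact ⟨fun e => h0 (by linear_combination e / 2), h1, h2⟩
  have n3 : -ρ ∉ ({1, -1} : Finset ℂ) := by
    simp only [Finset.mem_insert, Finset.mem_singleton, not_or]
    exact ⟨fun e => h2 (by linear_combination -e), fun e => h1 (by linear_combination -e)⟩
  have n4 : (1 : ℂ) ∉ ({-1} : Finset ℂ) := by
    simp only [Finset.mem_singleton]
    intro e
    have : (2 : ℂ) = 0 := by linear_combination e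
    norm_num at this
  obtain ⟨a, b, h⟩ := one_plane ρ {0, ρ, -ρ, 1, -1} g (fun s hs => hg s (by
    simp only [Finset.mem_insert, Finset.mem_singleton] at hs
    rcases hs with rfl | rfl | rfl | rfl | rfl <;> simp only [G, Fin.isValue, map_mul, L_X, Matrix.cons_val_zero, map_zero, zero_mul, map_sub, Matrix.cons_val_one, zero_sub, mul_neg, neg_zero, map_add, zero_add, Matrix.cons_val, map_one, one_mul, sub_self, mul_zero, map_neg, neg_mul, neg_add_cancel]))
  rw [Finset.prod_insert n1, Finset.prod_insert n2, Finset.prod_insert n3, Finset.prod_insert n4,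
    Finset.prod_singleton] at h
  refine ⟨a + X 0 * (X 1 + C ρ * X 2) * (X 0 - X 2) * (X 0 + X 2) * b, b, ?_⟩
  rw [h, G]
  simp only [map_zero, map_neg, map_one]
  ring

lemma decomp (Λ : Finset ℂ) (hΛ : ∀ ρ ∈ Λ, ρ ≠ 0 ∧ ρ ≠ 1 ∧ ρ ≠ -1) (g : R)
    (hg : ∀ ρ ∈ Λ, ∀ s : ℂ, L ![s, ρ, 1] G = 0 → L ![s, ρ, 1] g = 0) :
    ∃ a b : R, g = F1 Λ * a + G * b := by
  classical
  induction Λ using Finset.induction_on generalizing g with
  | empty => exact ⟨g, 0, by simp [F1]⟩
  | insert ρ Λ hρ ih =>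
    obtain ⟨h0, h1, h2⟩ := hΛ ρ (by simp)
    obtain ⟨a, b, h⟩ := one_plane_G ρ h0 h1 h2 g (hg ρ (by simp))
    obtain ⟨a', b', h'⟩ := ih (fun ρ' h' => hΛ ρ' (by simp [h'])) a (fun ρ' hρ' s hs => by
      have h3 := hg ρ' (by simp [hρ']) s hs
      rw [h] at h3
      have hne : ρ' - ρ ≠ 0 := sub_ne_zero.2 (fun e => hρ (e ▸ hρ'))
      have h4 : Polynomial.C (ρ' - ρ) * Polynomial.X * L ![s, ρ', 1] a = 0 := by
        rw [← h3]; simp [hs]; left; ring
      rcases mul_eq_zero.1 h4 with h5 | h5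
      · exact absurd h5 (mul_ne_zero (Polynomial.C_ne_zero.2 hne) Polynomial.X_ne_zero)
      · exact h5)
    refine ⟨a', b + (X 1 - C ρ * X 2) * b', ?_⟩
    rw [F1, Finset.prod_insert hρ, h, h', F1]; ring

lemma L_F1_ne (Λ : Finset ℂ) (v : Fin 3 → ℂ) (hv : ∀ ρ ∈ Λ, v 1 - ρ * v 2 ≠ 0) :
    L v (F1 Λ) ≠ 0 := by
  rw [F1, map_prod, Finset.prod_ne_zero_iff]
  intro ρ hρ
  have : L v (X 1 - C ρ * X 2) = Polynomial.C (v 1 - ρ * v 2) * Polynomial.X := by
    simp; ring
  rw [this]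
  exact mul_ne_zero (Polynomial.C_ne_zero.2 (hv ρ hρ)) Polynomial.X_ne_zero

lemma Z_F1 (Λ : Finset ℂ) (hΛ : ∀ ρ ∈ Λ, ρ ≠ 0 ∧ ρ ≠ 1 ∧ ρ ≠ -1) :
    ∀ z ∈ Z, L z (F1 Λ) ≠ 0 := by
  intro z hz
  apply L_F1_ne
  intro ρ hρ
  obtain ⟨h0, h1, h2⟩ := hΛ ρ hρ
  have a1 : (1 : ℂ) - ρ ≠ 0 := sub_ne_zero.2 h1.symm
  have a2 : (-1 : ℂ) - ρ ≠ 0 := sub_ne_zero.2 h2.symm
  simp only [Z, List.mem_cons, List.not_mem_nil, or_false] at hz
  rcases hz with rfl | rfl | rfl | rfl | rfl | rfl | rfl | rfl | rfl | rfl | rfl | rfl <;>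
    simp [h0, a1, a2]

lemma Z_G : ∀ z ∈ Z, L z G = 0 := by
  intro z hz
  simp only [Z, List.mem_cons, List.not_mem_nil, or_false] at hz
  rcases hz with rfl | rfl | rfl | rfl | rfl | rfl | rfl | rfl | rfl | rfl | rfl | rfl <;>
    simp only [G, Fin.isValue, map_mul, L_X, Matrix.cons_val_zero, map_zero, zero_mul, map_sub, Matrix.cons_val_one, sub_self, mul_zero, map_add, add_zero, Matrix.cons_val, map_one, one_mul, zero_sub, mul_neg, neg_zero, zero_add, sub_zero, map_neg, neg_mul, neg_neg, neg_add_cancel, sub_neg_eq_add, add_neg_cancel]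

/-- substitution `w ↦ a` -/
def σ (a : R) : R →ₐ[ℂ] R := aeval ![a, X 1, X 2]

lemma sub_σ (a y : R) : (X 0 - a) ∣ y - σ a y := by
  rw [← Ideal.mem_span_singleton, ← Ideal.Quotient.eq]
  have e : Ideal.Quotient.mkₐ ℂ (Ideal.span {X 0 - a}) =
      (Ideal.Quotient.mkₐ ℂ (Ideal.span {X 0 - a})).comp (σ a) := by
    apply MvPolynomial.algHom_ext
    intro i
    simp only [AlgHom.comp_apply, Ideal.Quotient.mkₐ_eq_mk, σ, aeval_X]
    rw [Ideal.Quotient.eq]
    fin_cases i
    · exact Ideal.subset_span (by simp)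
    · simp
    · simp
  exact DFunLike.congr_fun e y

lemma F1_ne (Λ : Finset ℂ) : F1 Λ ≠ 0 := by
  intro h
  have := L_F1_ne Λ ![0, 1, 0] (by simp)
  rw [h, map_zero] at this
  exact this rfl

lemma lin_dvd (Λ : Finset ℂ) (a y : R) (ha : σ a a = a) (h : (X 0 - a) ∣ F1 Λ ^ 2 * y) :
    (X 0 - a) ∣ y := by
  obtain ⟨k, hk⟩ := h
  have h1 : σ a (F1 Λ) = F1 Λ := by simp [F1, σ]
  have h2 : σ a (X 0 - a) = 0 := by rw [map_sub, ha]; simp [σ]
  have h3 := congrArg (σ a) hk
  rw [map_mul, map_mul, map_pow, h1, h2, zero_mul] at h3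
  have h4 : σ a y = 0 := (mul_eq_zero.1 h3).resolve_left (pow_ne_zero _ (F1_ne Λ))
  have := sub_σ a y
  rwa [h4, sub_zero] at this

lemma lin_ne (a : R) (ha : L ![1, 0, 0] a = 0) : X 0 - a ≠ 0 := by
  intro h
  have := congrArg (L ![1, 0, 0]) h
  simp [ha] at this

lemma step_dvd (Λ : Finset ℂ) (a y m : R) (ha : σ a a = a) (ha' : L ![1, 0, 0] a = 0)
    (ih : ∀ y : R, m ∣ F1 Λ ^ 2 * y → m ∣ y) (h : (X 0 - a) * m ∣ F1 Λ ^ 2 * y) :
    (X 0 - a) * m ∣ y := by
  obtain ⟨y', rfl⟩ := lin_dvd Λ a y ha (dvd_trans (Dvd.intro _ rfl) h)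
  apply mul_dvd_mul_left
  apply ih
  rw [show F1 Λ ^ 2 * ((X 0 - a) * y') = (X 0 - a) * (F1 Λ ^ 2 * y') by ring] at h
  exact (mul_dvd_mul_iff_left (lin_ne a ha')).1 h

lemma G_dvd (Λ : Finset ℂ) (y : R) (h : G ∣ F1 Λ ^ 2 * y) : G ∣ y := by
  have e : G = (X 0 - 0) * ((X 0 - X 1) * ((X 0 - (-X 1)) * ((X 0 - X 2) * ((X 0 - (-X 2)) * 1)))) := by
    rw [G]; ring
  rw [e] at h ⊢
  refine step_dvd Λ _ _ _ (by simp) (by simp) (fun y => ?_) h
  refine step_dvd Λ _ _ _ (by simp [σ]) (by simp) (fun y => ?_)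
  refine step_dvd Λ _ _ _ (by simp only [σ, Fin.isValue, aeval_eq_bind₁, map_neg, bind₁_X_right, Matrix.cons_val_one, Matrix.cons_val_zero]) (by simp only [Fin.isValue, map_neg, L_X, Matrix.cons_val_one, Matrix.cons_val_zero, map_zero, zero_mul, neg_zero]) (fun y => ?_)
  refine step_dvd Λ _ _ _ (by simp [σ]) (by simp) (fun y => ?_)
  refine step_dvd Λ _ _ _ (by simp only [σ, Fin.isValue, aeval_eq_bind₁, map_neg, bind₁_X_right, Matrix.cons_val]) (by simp only [Fin.isValue, map_neg, L_X, Matrix.cons_val, map_zero, zero_mul, neg_zero]) (fun y _ => one_dvd _)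

lemma G_ne : G ≠ 0 := by
  intro h
  have := congrArg (L ![1, 0, 0]) h
  simp [G] at this

/-- Non-membership, line form. -/
theorem not_mem_sq' (Λ : Finset ℂ) (hΛ : ∀ ρ ∈ Λ, ρ ≠ 0 ∧ ρ ≠ 1 ∧ ρ ≠ -1) (I : Ideal R)
    (hZ : ∀ g ∈ I, ∀ z ∈ Z, L z g = 0)
    (hV : ∀ g ∈ I, ∀ ρ ∈ Λ, ∀ s : ℂ, L ![s, ρ, 1] G = 0 → L ![s, ρ, 1] g = 0) :
    ff Λ ∉ I ^ 2 := by
  intro hf
  have dec : ∀ g ∈ I, ∃ a b : R, g = F1 Λ * a + G * b ∧ ∀ z ∈ Z, L z a = 0 := by
    intro g hg
    obtain ⟨a, b, h⟩ := decomp Λ hΛ g (hV g hg)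
    refine ⟨a, b, h, fun z hz => ?_⟩
    have h1 := hZ g hg z hz
    rw [h, map_add, map_mul, map_mul, Z_G z hz, zero_mul, add_zero] at h1
    exact (mul_eq_zero.1 h1).resolve_left (Z_F1 Λ hΛ z hz)
  have main : ∃ q r t : R, ff Λ = F1 Λ ^ 2 * q + F1 Λ * G * r + G ^ 2 * t ∧
      Polynomial.X ^ 10 ∣ L ![1, 0, 0] q ∧ ∀ z ∈ Z, L z r = 0 := by
    rw [pow_two] at hf
    refine Submodule.mul_induction_on hf ?_ ?_
    · intro g hg g' hg'
      obtain ⟨a, b, rfl, ha⟩ := dec g hg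
      obtain ⟨a', b', rfl, ha'⟩ := dec g' hg'
      refine ⟨a * a', a * b' + a' * b, b * b', by ring, ?_, fun z hz => ?_⟩
      · rw [map_mul, show (10 : ℕ) = 5 + 5 from rfl, pow_add]
        exact mul_dvd_mul (cb a ha) (cb a' ha')
      · simp [ha z hz, ha' z hz]
    · rintro _ _ ⟨q, r, t, rfl, h1, h2⟩ ⟨q', r', t', rfl, h1', h2'⟩
      refine ⟨q + q', r + r', t + t', by ring, ?_, fun z hz => ?_⟩
      · rw [map_add]; exact dvd_add h1 h1'
      · simp [h2 z hz, h2' z hz]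
  obtain ⟨q, r, t, h, hq, hr⟩ := main
  have hG : G ∣ q := G_dvd Λ q ⟨F1 Λ * hh Λ - F1 Λ * r - G * t, by
    rw [ff] at h; linear_combination -h⟩
  obtain ⟨c', rfl⟩ := hG
  have h2 : F1 Λ * hh Λ = F1 Λ ^ 2 * c' + F1 Λ * r + G * t := by
    apply mul_left_cancel₀ G_ne
    rw [ff] at h; linear_combination h
  have h3 : ∀ z ∈ Z, L z (cc - c') = 0 := by
    intro z hz
    have h4 := congrArg (L z) h2
    simp only [hh, map_add, map_mul, map_pow, Z_G z hz, hr z hz, mul_zero, zero_mul, add_zero,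
      zero_add] at h4
    have h5 : L z (F1 Λ) ^ 2 * L z (cc - c') = 0 := by
      rw [map_sub]; linear_combination h4
    exact (mul_eq_zero.1 h5).resolve_left (pow_ne_zero _ (Z_F1 Λ hΛ z hz))
  have h6 := cb _ h3
  have h7 : Polynomial.X ^ 5 ∣ L ![1, 0, 0] c' := by
    have e : L ![1, 0, 0] G = Polynomial.X ^ 5 := by simp [G]; ring
    rw [map_mul, e, show (10 : ℕ) = 5 + 5 from rfl, pow_add] at hq
    exact (mul_dvd_mul_iff_left (pow_ne_zero _ Polynomial.X_ne_zero)).1 hq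
  have h8 : Polynomial.X ^ 5 ∣ L ![1, 0, 0] cc := by
    have := dvd_add h6 h7
    rwa [map_sub, sub_add_cancel] at this
  have e : L ![1, 0, 0] cc = Polynomial.C (-2) * Polynomial.X ^ 4 := by
    simp [cc, map_ofNat]
  rw [e, Polynomial.X_pow_dvd_iff] at h8
  have := h8 4 (by norm_num)
  simp at this

lemma L_eq_zero (v : Fin 3 → ℂ) (g : R) (h : ∀ t : ℂ, eval (t • v) g = 0) : L v g = 0 := by
  apply Polynomial.funext
  intro t
  have e : (Polynomial.aeval t).comp (L v) = aeval (t • v) := by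
    apply MvPolynomial.algHom_ext
    intro i
    simp; ring
  have := DFunLike.congr_fun e g
  simp only [AlgHom.comp_apply, Polynomial.coe_aeval_eq_eval] at this
  rw [Polynomial.eval_zero, ← h t]
  exact this

lemma eval_of_L (v : Fin 3 → ℂ) (g : R) (h : L v g = 0) (t : ℂ) : eval (t • v) g = 0 := by
  have e : (Polynomial.aeval t).comp (L v) = aeval (t • v) := by
    apply MvPolynomial.algHom_ext
    intro i
    simp; ring
  have := DFunLike.congr_fun e g
  simp only [AlgHom.comp_apply, h, map_zero] at this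
  exact this.symm

/-- **Non-membership**: if every element of `I` vanishes at all common zeros of `G` and of
`x u (x - u) (x + u) F₁`, then `f ∉ I²`. -/
theorem not_mem_sq (Λ : Finset ℂ) (hΛ : ∀ ρ ∈ Λ, ρ ≠ 0 ∧ ρ ≠ 1 ∧ ρ ≠ -1) (I : Ideal R)
    (hI : ∀ g ∈ I, ∀ v : Fin 3 → ℂ, eval v G = 0 →
      eval v (X 1 * X 2 * (X 1 - X 2) * (X 1 + X 2) * F1 Λ) = 0 → eval v g = 0) :
    ff Λ ∉ I ^ 2 := by
  apply not_mem_sq' Λ hΛ I
  · intro g hg z hz
    apply L_eq_zero
    intro t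
    apply hI g hg _ (eval_of_L _ _ (Z_G z hz) t)
    apply eval_of_L
    simp only [Z, List.mem_cons, List.not_mem_nil, or_false] at hz
    rcases hz with rfl | rfl | rfl | rfl | rfl | rfl | rfl | rfl | rfl | rfl | rfl | rfl <;>
      simp only [Fin.isValue, map_mul, L_X, Matrix.cons_val_one, Matrix.cons_val_zero, map_zero, zero_mul, Matrix.cons_val, map_one, one_mul, map_sub, zero_sub, mul_neg, neg_zero, map_add, zero_add, mul_zero, sub_zero, add_zero, sub_self, map_neg, neg_mul, neg_add_cancel]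
  · intro g hg ρ hρ s hs
    apply L_eq_zero
    intro t
    apply hI g hg _ (eval_of_L _ _ hs t)
    apply eval_of_L
    have : L ![s, ρ, 1] (F1 Λ) = 0 := by
      rw [F1, map_prod]
      exact Finset.prod_eq_zero hρ (by simp)
    rw [map_mul, this, mul_zero]

section Cube

variable (Λ : Finset ℂ) (I : Ideal R)

lemma sq_of {a b : R} (ha : a ∈ I) (hb : b ∈ I) (p : R) : a * b * p ∈ I ^ 2 := by
  rw [pow_two]; exact Ideal.mul_mem_right _ _ (Ideal.mul_mem_mul ha hb)

lemma cube_of {a b : R} (ha : a ∈ I) (hb : b ∈ I ^ 2) (p : R) : a * b * p ∈ I ^ 3 := by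
  rw [pow_succ' I 2]; exact Ideal.mul_mem_right _ _ (Ideal.mul_mem_mul ha hb)

lemma cP (hc : 3 ≤ Λ.card) (h1 : X 1 ∈ I) (h2 : X 2 ∈ I) : ff Λ ∈ I ^ 3 := by
  have h : F1 Λ ∈ ∏ _ρ ∈ Λ, I :=
    Ideal.prod_mem_prod fun ρ _ => I.sub_mem h1 (I.mul_mem_left _ h2)
  rw [Finset.prod_const] at h
  exact Ideal.mul_mem_right _ _ (Ideal.mul_mem_left _ _ (Ideal.pow_le_pow_right hc h))

lemma cQ1 (h0 : X 0 ∈ I) (h1 : X 1 ∈ I) : ff Λ ∈ I ^ 3 := by
  have := cube_of I h0 (sq_of I (I.sub_mem h0 h1) (I.add_mem h0 h1) 1)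
    ((X 0 - X 2) * (X 0 + X 2) * F1 Λ * hh Λ)
  convert this using 1
  rw [ff, G]; ring

lemma cQ2 (h0 : X 0 ∈ I) (h2 : X 2 ∈ I) : ff Λ ∈ I ^ 3 := by
  have := cube_of I h0 (sq_of I (I.sub_mem h0 h2) (I.add_mem h0 h2) 1)
    ((X 0 - X 1) * (X 0 + X 1) * F1 Λ * hh Λ)
  convert this using 1
  rw [ff, G]; ring

lemma cV (hG : G ∈ I) (hF : F1 Λ ∈ I) : ff Λ ∈ I ^ 3 := by
  have hh' : hh Λ ∈ I := I.add_mem (I.mul_mem_left _ hG) (I.mul_mem_left _ hF)
  have := cube_of I hG (sq_of I hF hh' 1) 1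
  convert this using 1
  rw [ff]; ring

lemma cT (hA : X 0 ^ 2 - X 2 ^ 2 ∈ I) (hB : X 1 ^ 2 - X 2 ^ 2 ∈ I) : ff Λ ∈ I ^ 3 := by
  have hG : G = (X 0 ^ 2 - X 2 ^ 2) * ((X 0 ^ 2 - X 2 ^ 2) - (X 1 ^ 2 - X 2 ^ 2)) * X 0 := by
    rw [G]; ring
  have hG2 : G ∈ I ^ 2 := hG ▸ sq_of I hA (I.sub_mem hA hB) _
  have hG1 : G ∈ I := Ideal.pow_le_self (by norm_num) hG2
  have hc : cc ∈ I := by
    have : cc = (X 1 ^ 2 - X 2 ^ 2 + X 0 ^ 2) * (X 1 ^ 2 - X 2 ^ 2)
        - 2 * X 0 ^ 2 * (X 0 ^ 2 - X 2 ^ 2) := by rw [cc]; ring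
    rw [this]
    exact I.sub_mem (I.mul_mem_left _ hB) (I.mul_mem_left _ hA)
  have hh' : hh Λ ∈ I := I.add_mem (I.mul_mem_left _ hG1) (I.mul_mem_right _ hc)
  have := cube_of I hh' hG2 (F1 Λ)
  convert this using 1
  rw [ff]; ring

lemma cD (hG : G ∈ I) (h : hh Λ ∈ I ^ 2) : ff Λ ∈ I ^ 3 := by
  have := cube_of I hG h (F1 Λ)
  convert this using 1
  rw [ff]; ring

lemma cD3 (h0 : X 0 ∈ I) (hB : X 1 ^ 2 - X 2 ^ 2 ∈ I) : ff Λ ∈ I ^ 3 := by
  have hG : G ∈ I := by
    rw [G, mul_assoc, mul_assoc, mul_assoc]; exact I.mul_mem_right _ h0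
  apply cD Λ I hG
  have h1 := sq_of I h0 hG
    (3 * (X 1 ^ (Λ.card - 2) + C (∏ ρ ∈ Λ, (-ρ)) * X 2 ^ (Λ.card - 2)))
  have h2 := sq_of I hB hB (F1 Λ)
  have h3 := sq_of I h0 h0 ((X 1 ^ 2 + X 2 ^ 2 - 2 * X 0 ^ 2) * F1 Λ)
  convert (I ^ 2).add_mem h1 ((I ^ 2).add_mem h2 h3) using 1
  rw [hh, cc]; ring

lemma F1_mod_x : ∃ k : R, F1 Λ = C (∏ ρ ∈ Λ, (-ρ)) * X 2 ^ Λ.card + X 1 * k := by
  classical
  induction Λ using Finset.induction_on with
  | empty => exact ⟨0, by simp [F1]⟩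
  | insert ρ Λ hρ ih =>
    obtain ⟨k, hk⟩ := ih
    refine ⟨C (∏ ρ ∈ Λ, (-ρ)) * X 2 ^ Λ.card + (X 1 - C ρ * X 2) * k, ?_⟩
    rw [F1] at hk ⊢
    rw [Finset.prod_insert hρ, Finset.prod_insert hρ, Finset.card_insert_of_notMem hρ, hk,
      map_mul, map_neg]
    ring

lemma F1_mod_u : ∃ k : R, F1 Λ = X 1 ^ Λ.card + X 2 * k := by
  classical
  induction Λ using Finset.induction_on with
  | empty => exact ⟨0, by simp [F1]⟩
  | insert ρ Λ hρ ih =>
    obtain ⟨k, hk⟩ := ih
    refine ⟨-C ρ * X 1 ^ Λ.card + (X 1 - C ρ * X 2) * k, ?_⟩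
    rw [F1] at hk ⊢
    rw [Finset.prod_insert hρ, Finset.card_insert_of_notMem hρ, hk]
    ring

lemma cD1 (hc : 3 ≤ Λ.card) (h1 : X 1 ∈ I) (hA : X 0 ^ 2 - X 2 ^ 2 ∈ I) : ff Λ ∈ I ^ 3 := by
  have hG : G ∈ I := by
    have : G = X 0 * (X 0 ^ 2 - X 1 ^ 2) * (X 0 ^ 2 - X 2 ^ 2) := by rw [G]; ring
    rw [this]; exact I.mul_mem_left _ hA
  apply cD Λ I hG
  obtain ⟨k, hk⟩ := F1_mod_x Λ
  obtain ⟨n, hn⟩ : ∃ n, Λ.card = n + 3 := ⟨Λ.card - 3, by omega⟩
  set κ : R := C (∏ ρ ∈ Λ, (-ρ)) with hκ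
  have e1 := sq_of I h1 hA (3 * X 0 ^ 2 * X 1 ^ n * (X 0 ^ 2 - X 1 ^ 2)
    - 3 * X 0 ^ 2 * (κ * X 2 ^ (n + 1)) * X 1 + (X 1 ^ 2 - 2 * X 0 ^ 2 - X 2 ^ 2) * k
    + X 1 * (κ * X 2 ^ (n + 1)) * X 2 ^ 2)
  have e2 := sq_of I h1 h1 ((X 1 ^ 2 - X 2 ^ 2) * F1 Λ)
  have e3 := sq_of I hA hA (κ * X 2 ^ (n + 1) * (3 * X 0 ^ 2 + X 2 ^ 2))
  convert (I ^ 2).add_mem e1 ((I ^ 2).add_mem e2 e3) using 1
  rw [hh, ← hκ, hk, hn, show n + 3 - 2 = n + 1 by omega, cc, G]; ring

lemma cD2 (hc : 3 ≤ Λ.card) (h2 : X 2 ∈ I) (hA : X 0 ^ 2 - X 1 ^ 2 ∈ I) : ff Λ ∈ I ^ 3 := by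
  have hG : G ∈ I := by
    have : G = X 0 * (X 0 ^ 2 - X 2 ^ 2) * (X 0 ^ 2 - X 1 ^ 2) := by rw [G]; ring
    rw [this]; exact I.mul_mem_left _ hA
  apply cD Λ I hG
  obtain ⟨k, hk⟩ := F1_mod_u Λ
  obtain ⟨n, hn⟩ : ∃ n, Λ.card = n + 3 := ⟨Λ.card - 3, by omega⟩
  set κ : R := C (∏ ρ ∈ Λ, (-ρ)) with hκ
  have e1 := sq_of I h2 hA (3 * X 0 ^ 2 * κ * X 2 ^ n * (X 0 ^ 2 - X 2 ^ 2)
    - 3 * X 0 ^ 2 * X 1 ^ (n + 1) * X 2 + (X 2 ^ 2 - 2 * X 0 ^ 2 - X 1 ^ 2) * k
    + X 2 * X 1 ^ (n + 1) * X 1 ^ 2)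
  have e2 := sq_of I h2 h2 ((X 2 ^ 2 - X 1 ^ 2) * F1 Λ)
  have e3 := sq_of I hA hA (X 1 ^ (n + 1) * (3 * X 0 ^ 2 + X 1 ^ 2))
  convert (I ^ 2).add_mem e1 ((I ^ 2).add_mem e2 e3) using 1
  rw [hh, ← hκ, hk, hn, show n + 3 - 2 = n + 1 by omega, cc, G]; ring

end Cube

section Pairs

variable (Λ : Finset ℂ) (I : Ideal R)

lemma unit_mem {y : R} (c : ℂ) (hc : c ≠ 0) (h : C c * y ∈ I) : y ∈ I := by
  have := I.mul_mem_left (C c⁻¹) h
  rwa [← mul_assoc, ← map_mul, inv_mul_cancel₀ hc, map_one, one_mul] at this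

lemma comb {a b y : R} (ha : a ∈ I) (hb : b ∈ I) (p q : R) (h : 2 * y = p * a + q * b) :
    y ∈ I := by
  apply unit_mem I 2 two_ne_zero
  rw [map_ofNat, h]
  exact I.add_mem (I.mul_mem_left _ ha) (I.mul_mem_left _ hb)

lemma sq_sub {a b : R} (h : a - b ∈ I) : a ^ 2 - b ^ 2 ∈ I := by
  rw [show a ^ 2 - b ^ 2 = (a + b) * (a - b) by ring]; exact I.mul_mem_left _ h

lemma sq_add {a b : R} (h : a + b ∈ I) : a ^ 2 - b ^ 2 ∈ I := by
  rw [show a ^ 2 - b ^ 2 = (a - b) * (a + b) by ring]; exact I.mul_mem_left _ h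

/-- the nine forms of `B₃` -/
def B3 : List R :=
  [X 0, X 0 - X 1, X 0 + X 1, X 0 - X 2, X 0 + X 2, X 1, X 2, X 1 - X 2, X 1 + X 2]

lemma pair_B3 (hc : 3 ≤ Λ.card) {a b : R} (h1 : a ∈ B3) (h2 : b ∈ B3) (hne : a ≠ b)
    (ha : a ∈ I) (hb : b ∈ I) : ff Λ ∈ I ^ 3 := by
  simp only [B3, List.mem_cons, List.not_mem_nil, or_false] at h1 h2
  rcases h1 with rfl | rfl | rfl | rfl | rfl | rfl | rfl | rfl | rfl <;>
    rcases h2 with rfl | rfl | rfl | rfl | rfl | rfl | rfl | rfl | rfl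
  · exact absurd rfl hne
  · exact cQ1 Λ I (comb I ha hb (2) (0) (by ring)) (comb I ha hb (2) (-2) (by ring))
  · exact cQ1 Λ I (comb I ha hb (2) (0) (by ring)) (comb I ha hb (-2) (2) (by ring))
  · exact cQ2 Λ I (comb I ha hb (2) (0) (by ring)) (comb I ha hb (2) (-2) (by ring))
  · exact cQ2 Λ I (comb I ha hb (2) (0) (by ring)) (comb I ha hb (-2) (2) (by ring))
  · exact cQ1 Λ I (comb I ha hb (2) (0) (by ring)) (comb I ha hb (0) (2) (by ring))
  · exact cQ2 Λ I (comb I ha hb (2) (0) (by ring)) (comb I ha hb (0) (2) (by ring))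
  · exact cD3 Λ I (comb I ha hb (2) (0) (by ring))
      (sq_sub I (a := X 1) (b := X 2) (comb I ha hb (0) (2) (by ring)))
  · exact cD3 Λ I (comb I ha hb (2) (0) (by ring))
      (sq_add I (a := X 1) (b := X 2) (comb I ha hb (0) (2) (by ring)))
  · exact cQ1 Λ I (comb I ha hb (0) (2) (by ring)) (comb I ha hb (-2) (2) (by ring))
  · exact absurd rfl hne
  · exact cQ1 Λ I (comb I ha hb (1) (1) (by ring)) (comb I ha hb (-1) (1) (by ring))
  · exact cT Λ I (sq_sub I (a := X 0) (b := X 2) (comb I ha hb (0) (2) (by ring)))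
      (sq_sub I (a := X 1) (b := X 2) (comb I ha hb (-2) (2) (by ring)))
  · exact cT Λ I (sq_add I (a := X 0) (b := X 2) (comb I ha hb (0) (2) (by ring)))
      (sq_add I (a := X 1) (b := X 2) (comb I ha hb (-2) (2) (by ring)))
  · exact cQ1 Λ I (comb I ha hb (2) (2) (by ring)) (comb I ha hb (0) (2) (by ring))
  · exact cD2 Λ I hc (comb I ha hb (0) (2) (by ring))
      (sq_sub I (a := X 0) (b := X 1) (comb I ha hb (2) (0) (by ring)))
  · exact cT Λ I (sq_sub I (a := X 0) (b := X 2) (comb I ha hb (2) (2) (by ring)))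
      (sq_sub I (a := X 1) (b := X 2) (comb I ha hb (0) (2) (by ring)))
  · exact cT Λ I (sq_add I (a := X 0) (b := X 2) (comb I ha hb (2) (2) (by ring)))
      (sq_add I (a := X 1) (b := X 2) (comb I ha hb (0) (2) (by ring)))
  · exact cQ1 Λ I (comb I ha hb (0) (2) (by ring)) (comb I ha hb (2) (-2) (by ring))
  · exact cQ1 Λ I (comb I ha hb (1) (1) (by ring)) (comb I ha hb (1) (-1) (by ring))
  · exact absurd rfl hne
  · exact cT Λ I (sq_sub I (a := X 0) (b := X 2) (comb I ha hb (0) (2) (by ring)))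
      (sq_add I (a := X 1) (b := X 2) (comb I ha hb (2) (-2) (by ring)))
  · exact cT Λ I (sq_add I (a := X 0) (b := X 2) (comb I ha hb (0) (2) (by ring)))
      (sq_sub I (a := X 1) (b := X 2) (comb I ha hb (2) (-2) (by ring)))
  · exact cQ1 Λ I (comb I ha hb (2) (-2) (by ring)) (comb I ha hb (0) (2) (by ring))
  · exact cD2 Λ I hc (comb I ha hb (0) (2) (by ring))
      (sq_add I (a := X 0) (b := X 1) (comb I ha hb (2) (0) (by ring)))
  · exact cT Λ I (sq_add I (a := X 0) (b := X 2) (comb I ha hb (2) (-2) (by ring)))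
      (sq_sub I (a := X 1) (b := X 2) (comb I ha hb (0) (2) (by ring)))
  · exact cT Λ I (sq_sub I (a := X 0) (b := X 2) (comb I ha hb (2) (-2) (by ring)))
      (sq_add I (a := X 1) (b := X 2) (comb I ha hb (0) (2) (by ring)))
  · exact cQ2 Λ I (comb I ha hb (0) (2) (by ring)) (comb I ha hb (-2) (2) (by ring))
  · exact cT Λ I (sq_sub I (a := X 0) (b := X 2) (comb I ha hb (2) (0) (by ring)))
      (sq_sub I (a := X 1) (b := X 2) (comb I ha hb (2) (-2) (by ring)))
  · exact cT Λ I (sq_sub I (a := X 0) (b := X 2) (comb I ha hb (2) (0) (by ring)))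
      (sq_add I (a := X 1) (b := X 2) (comb I ha hb (-2) (2) (by ring)))
  · exact absurd rfl hne
  · exact cQ2 Λ I (comb I ha hb (1) (1) (by ring)) (comb I ha hb (-1) (1) (by ring))
  · exact cD1 Λ I hc (comb I ha hb (0) (2) (by ring))
      (sq_sub I (a := X 0) (b := X 2) (comb I ha hb (2) (0) (by ring)))
  · exact cQ2 Λ I (comb I ha hb (2) (2) (by ring)) (comb I ha hb (0) (2) (by ring))
  · exact cT Λ I (sq_sub I (a := X 0) (b := X 2) (comb I ha hb (2) (0) (by ring)))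
      (sq_sub I (a := X 1) (b := X 2) (comb I ha hb (0) (2) (by ring)))
  · exact cT Λ I (sq_sub I (a := X 0) (b := X 2) (comb I ha hb (2) (0) (by ring)))
      (sq_add I (a := X 1) (b := X 2) (comb I ha hb (0) (2) (by ring)))
  · exact cQ2 Λ I (comb I ha hb (0) (2) (by ring)) (comb I ha hb (2) (-2) (by ring))
  · exact cT Λ I (sq_add I (a := X 0) (b := X 2) (comb I ha hb (2) (0) (by ring)))
      (sq_add I (a := X 1) (b := X 2) (comb I ha hb (2) (-2) (by ring)))
  · exact cT Λ I (sq_add I (a := X 0) (b := X 2) (comb I ha hb (2) (0) (by ring)))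
      (sq_sub I (a := X 1) (b := X 2) (comb I ha hb (-2) (2) (by ring)))
  · exact cQ2 Λ I (comb I ha hb (1) (1) (by ring)) (comb I ha hb (1) (-1) (by ring))
  · exact absurd rfl hne
  · exact cD1 Λ I hc (comb I ha hb (0) (2) (by ring))
      (sq_add I (a := X 0) (b := X 2) (comb I ha hb (2) (0) (by ring)))
  · exact cQ2 Λ I (comb I ha hb (2) (-2) (by ring)) (comb I ha hb (0) (2) (by ring))
  · exact cT Λ I (sq_add I (a := X 0) (b := X 2) (comb I ha hb (2) (0) (by ring)))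
      (sq_sub I (a := X 1) (b := X 2) (comb I ha hb (0) (2) (by ring)))
  · exact cT Λ I (sq_add I (a := X 0) (b := X 2) (comb I ha hb (2) (0) (by ring)))
      (sq_add I (a := X 1) (b := X 2) (comb I ha hb (0) (2) (by ring)))
  · exact cQ1 Λ I (comb I ha hb (0) (2) (by ring)) (comb I ha hb (2) (0) (by ring))
  · exact cQ1 Λ I (comb I ha hb (2) (2) (by ring)) (comb I ha hb (2) (0) (by ring))
  · exact cQ1 Λ I (comb I ha hb (-2) (2) (by ring)) (comb I ha hb (2) (0) (by ring))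
  · exact cD1 Λ I hc (comb I ha hb (2) (0) (by ring))
      (sq_sub I (a := X 0) (b := X 2) (comb I ha hb (0) (2) (by ring)))
  · exact cD1 Λ I hc (comb I ha hb (2) (0) (by ring))
      (sq_add I (a := X 0) (b := X 2) (comb I ha hb (0) (2) (by ring)))
  · exact absurd rfl hne
  · exact cP Λ I hc (comb I ha hb (2) (0) (by ring)) (comb I ha hb (0) (2) (by ring))
  · exact cP Λ I hc (comb I ha hb (2) (0) (by ring)) (comb I ha hb (2) (-2) (by ring))
  · exact cP Λ I hc (comb I ha hb (2) (0) (by ring)) (comb I ha hb (-2) (2) (by ring))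
  · exact cQ2 Λ I (comb I ha hb (0) (2) (by ring)) (comb I ha hb (2) (0) (by ring))
  · exact cD2 Λ I hc (comb I ha hb (2) (0) (by ring))
      (sq_sub I (a := X 0) (b := X 1) (comb I ha hb (0) (2) (by ring)))
  · exact cD2 Λ I hc (comb I ha hb (2) (0) (by ring))
      (sq_add I (a := X 0) (b := X 1) (comb I ha hb (0) (2) (by ring)))
  · exact cQ2 Λ I (comb I ha hb (2) (2) (by ring)) (comb I ha hb (2) (0) (by ring))
  · exact cQ2 Λ I (comb I ha hb (-2) (2) (by ring)) (comb I ha hb (2) (0) (by ring))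
  · exact cP Λ I hc (comb I ha hb (0) (2) (by ring)) (comb I ha hb (2) (0) (by ring))
  · exact absurd rfl hne
  · exact cP Λ I hc (comb I ha hb (2) (2) (by ring)) (comb I ha hb (2) (0) (by ring))
  · exact cP Λ I hc (comb I ha hb (-2) (2) (by ring)) (comb I ha hb (2) (0) (by ring))
  · exact cD3 Λ I (comb I ha hb (0) (2) (by ring))
      (sq_sub I (a := X 1) (b := X 2) (comb I ha hb (2) (0) (by ring)))
  · exact cT Λ I (sq_sub I (a := X 0) (b := X 2) (comb I ha hb (2) (2) (by ring)))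
      (sq_sub I (a := X 1) (b := X 2) (comb I ha hb (2) (0) (by ring)))
  · exact cT Λ I (sq_add I (a := X 0) (b := X 2) (comb I ha hb (-2) (2) (by ring)))
      (sq_sub I (a := X 1) (b := X 2) (comb I ha hb (2) (0) (by ring)))
  · exact cT Λ I (sq_sub I (a := X 0) (b := X 2) (comb I ha hb (0) (2) (by ring)))
      (sq_sub I (a := X 1) (b := X 2) (comb I ha hb (2) (0) (by ring)))
  · exact cT Λ I (sq_add I (a := X 0) (b := X 2) (comb I ha hb (0) (2) (by ring)))
      (sq_sub I (a := X 1) (b := X 2) (comb I ha hb (2) (0) (by ring)))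
  · exact cP Λ I hc (comb I ha hb (0) (2) (by ring)) (comb I ha hb (-2) (2) (by ring))
  · exact cP Λ I hc (comb I ha hb (2) (2) (by ring)) (comb I ha hb (0) (2) (by ring))
  · exact absurd rfl hne
  · exact cP Λ I hc (comb I ha hb (1) (1) (by ring)) (comb I ha hb (-1) (1) (by ring))
  · exact cD3 Λ I (comb I ha hb (0) (2) (by ring))
      (sq_add I (a := X 1) (b := X 2) (comb I ha hb (2) (0) (by ring)))
  · exact cT Λ I (sq_add I (a := X 0) (b := X 2) (comb I ha hb (2) (2) (by ring)))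
      (sq_add I (a := X 1) (b := X 2) (comb I ha hb (2) (0) (by ring)))
  · exact cT Λ I (sq_sub I (a := X 0) (b := X 2) (comb I ha hb (-2) (2) (by ring)))
      (sq_add I (a := X 1) (b := X 2) (comb I ha hb (2) (0) (by ring)))
  · exact cT Λ I (sq_sub I (a := X 0) (b := X 2) (comb I ha hb (0) (2) (by ring)))
      (sq_add I (a := X 1) (b := X 2) (comb I ha hb (2) (0) (by ring)))
  · exact cT Λ I (sq_add I (a := X 0) (b := X 2) (comb I ha hb (0) (2) (by ring)))
      (sq_add I (a := X 1) (b := X 2) (comb I ha hb (2) (0) (by ring)))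
  · exact cP Λ I hc (comb I ha hb (0) (2) (by ring)) (comb I ha hb (2) (-2) (by ring))
  · exact cP Λ I hc (comb I ha hb (2) (-2) (by ring)) (comb I ha hb (0) (2) (by ring))
  · exact cP Λ I hc (comb I ha hb (1) (1) (by ring)) (comb I ha hb (1) (-1) (by ring))
  · exact absurd rfl hne

lemma pair_pencil (hc : 3 ≤ Λ.card) {ρ ρ' : ℂ} (hne : ρ ≠ ρ')
    (ha : X 1 - C ρ * X 2 ∈ I) (hb : X 1 - C ρ' * X 2 ∈ I) : ff Λ ∈ I ^ 3 := by
  have h2 : X 2 ∈ I := by
    apply unit_mem I (ρ - ρ') (sub_ne_zero.2 hne)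
    convert I.sub_mem hb ha using 1
    rw [map_sub]; ring
  refine cP Λ I hc ?_ h2
  simpa using I.add_mem ha (I.mul_mem_left (C ρ) h2)

lemma pair_mixed (hΛ : ∀ ρ ∈ Λ, ρ ≠ 0 ∧ ρ ≠ 1 ∧ ρ ≠ -1) (hc : 3 ≤ Λ.card) {a : R} {ρ : ℂ}
    (h1 : a ∈ B3) (hρ : ρ ∈ Λ) (ha : a ∈ I) (hb : X 1 - C ρ * X 2 ∈ I) : ff Λ ∈ I ^ 3 := by
  have hF : F1 Λ ∈ I := Ideal.mem_of_dvd _ (Finset.dvd_prod_of_mem _ hρ) hb
  obtain ⟨h0, hp, hm⟩ := hΛ ρ hρ
  simp only [B3, List.mem_cons, List.not_mem_nil, or_false] at h1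
  rcases h1 with rfl | rfl | rfl | rfl | rfl | rfl | rfl | rfl | rfl
  · exact cV Λ I (Ideal.mem_of_dvd _ ⟨_, by rw [G, mul_assoc, mul_assoc, mul_assoc]⟩ ha) hF
  · exact cV Λ I (Ideal.mem_of_dvd _
      ⟨X 0 * (X 0 + X 1) * (X 0 - X 2) * (X 0 + X 2), by rw [G]; ring⟩ ha) hF
  · exact cV Λ I (Ideal.mem_of_dvd _
      ⟨X 0 * (X 0 - X 1) * (X 0 - X 2) * (X 0 + X 2), by rw [G]; ring⟩ ha) hF
  · exact cV Λ I (Ideal.mem_of_dvd _
      ⟨X 0 * (X 0 - X 1) * (X 0 + X 1) * (X 0 + X 2), by rw [G]; ring⟩ ha) hF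
  · exact cV Λ I (Ideal.mem_of_dvd _
      ⟨X 0 * (X 0 - X 1) * (X 0 + X 1) * (X 0 - X 2), by rw [G]; ring⟩ ha) hF
  · exact pair_pencil Λ I hc h0 hb (by simpa using ha)
  · exact cP Λ I hc (by simpa using I.add_mem hb (I.mul_mem_left (C ρ) ha)) ha
  · exact pair_pencil Λ I hc hp hb (by simpa using ha)
  · exact pair_pencil Λ I hc hm hb (by simpa only [Fin.isValue, C_neg, C_1, neg_mul, one_mul, sub_neg_eq_add] using ha)

/-- **Membership**: `f ∈ I³` for every ideal containing two different forms of the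
arrangement `B₃ ∪ {x = ρ u : ρ ∈ Λ}`. -/
theorem mem_cube (hΛ : ∀ ρ ∈ Λ, ρ ≠ 0 ∧ ρ ≠ 1 ∧ ρ ≠ -1) (hc : 3 ≤ Λ.card) {a b : R}
    (h1 : a ∈ B3 ∨ ∃ ρ ∈ Λ, a = X 1 - C ρ * X 2) (h2 : b ∈ B3 ∨ ∃ ρ ∈ Λ, b = X 1 - C ρ * X 2)
    (hne : a ≠ b) (ha : a ∈ I) (hb : b ∈ I) : ff Λ ∈ I ^ 3 := by
  rcases h1 with h1 | ⟨ρ, hρ, rfl⟩ <;> rcases h2 with h2 | ⟨ρ', hρ', rfl⟩
  · exact pair_B3 Λ I hc h1 h2 hne ha hb
  · exact pair_mixed Λ I hΛ hc h1 hρ' ha hb
  · exact pair_mixed Λ I hΛ hc h2 hρ hb ha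
  · exact pair_pencil Λ I hc (fun e => hne (by rw [e])) ha hb

end Pairs

end

end MP761c50.NonCont

end

-- part MP_761c50_ag.SS.Free
section

namespace Pool.Agent.MP_761c50_ag.SS

open MvPolynomial

noncomputable section

variable {l : ℕ}

theorem eval_lin (a v : Fin l → ℂ) : eval v (lin a) = ∑ i, a i * v i := by
  simp only [lin, map_sum, map_mul, eval_C, eval_X]

theorem lin_add (a b : Fin l → ℂ) : lin (a + b) = lin a + lin b := by
  simp only [lin, Pi.add_apply, C_add, add_mul, Finset.sum_add_distrib]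

theorem lin_sub (a b : Fin l → ℂ) : lin (a - b) = lin a - lin b := by
  simp only [lin, Pi.sub_apply, C_sub, sub_mul, Finset.sum_sub_distrib]

theorem lin_smul (t : ℂ) (a : Fin l → ℂ) : lin (t • a) = C t * lin a := by
  simp only [lin, Pi.smul_apply, smul_eq_mul, C_mul, mul_assoc, Finset.mul_sum]

theorem lin_single (i : Fin l) : lin (Pi.single i (1 : ℂ)) = X i := by
  classical
  unfold lin
  rw [Finset.sum_eq_single i]
  · simp
  · intro j _ hj; simp [hj]
  · simp only [Finset.mem_univ, not_true_eq_false, Pi.single_eq_same, C_1, one_mul, X_ne_zero, imp_self]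

theorem lin_hom (a : Fin l → ℂ) : (lin a).IsHomogeneous 1 := by
  unfold lin
  apply IsHomogeneous.sum
  intro i _
  simpa using (isHomogeneous_C (Fin l) (a i)).mul (isHomogeneous_X ℂ i)

theorem der_lin (θ : Derivation ℂ (MvPolynomial (Fin l) ℂ) (MvPolynomial (Fin l) ℂ))
    (a : Fin l → ℂ) : θ (lin a) = ∑ i, C (a i) * θ (X i) := by
  simp only [lin, map_sum, Derivation.leibniz, smul_eq_mul, derivation_C, mul_zero, add_zero]

/-- the functional with coefficients `a` -/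
def fn (a : Fin l → ℂ) : Module.Dual ℂ (Fin l → ℂ) where
  toFun v := ∑ i, a i * v i
  map_add' v w := by simp only [Pi.add_apply, mul_add, Finset.sum_add_distrib]
  map_smul' t v := by simp only [Pi.smul_apply, smul_eq_mul, mul_left_comm, RingHom.id_apply, Finset.mul_sum]

/-- the hyperplane with equation `a` -/
def hyp (a : Fin l → ℂ) : Submodule ℂ (Fin l → ℂ) := LinearMap.ker (fn a)

theorem mem_hyp {a v : Fin l → ℂ} : v ∈ hyp a ↔ ∑ i, a i * v i = 0 := Iff.rfl

theorem mem_hyp' {a v : Fin l → ℂ} : v ∈ hyp a ↔ eval v (lin a) = 0 := by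
  rw [eval_lin]; rfl

theorem fn_single (a : Fin l → ℂ) (i : Fin l) : ∑ j, a j * (Pi.single i (1 : ℂ) : Fin l → ℂ) j = a i := by
  classical
  rw [Finset.sum_eq_single i]
  · simp
  · intro j _ hj; simp [hj]
  · simp only [Finset.mem_univ, not_true_eq_false, Pi.single_eq_same, mul_one, IsEmpty.forall_iff]

theorem finrank_hyp {a : Fin l → ℂ} (ha : a ≠ 0) : Module.finrank ℂ (hyp a) + 1 = l := by
  have h : fn a ≠ 0 := by
    intro h
    apply ha
    funext i
    have := congrArg (fun f => f (Pi.single i 1)) h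
    simpa only [Pi.zero_apply, fn, LinearMap.coe_mk, AddHom.coe_mk, fn_single, LinearMap.zero_apply] using this
  have := Module.Dual.finrank_ker_add_one_of_ne_zero h
  rw [Module.finrank_fin_fun] at this
  exact this

theorem smul_of_le {a b : Fin l → ℂ} (ha : a ≠ 0) (h : hyp a ≤ hyp b) : ∃ t : ℂ, b = t • a := by
  obtain ⟨i, hi⟩ := Function.ne_iff.mp ha
  have hi' : a i ≠ 0 := hi
  refine ⟨b i / a i, funext fun j => ?_⟩
  have hm : (a i • Pi.single j (1 : ℂ) - a j • Pi.single i (1 : ℂ) : Fin l → ℂ) ∈ hyp a := by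
    show fn a _ = 0
    rw [map_sub, map_smul, map_smul]
    simp only [fn, LinearMap.coe_mk, AddHom.coe_mk, fn_single, smul_eq_mul]
    ring
  have h2 : fn b _ = 0 := h hm
  rw [map_sub, map_smul, map_smul] at h2
  simp only [fn, LinearMap.coe_mk, AddHom.coe_mk, fn_single, smul_eq_mul] at h2
  simp only [Pi.smul_apply, smul_eq_mul]
  field_simp
  linear_combination h2

theorem hyp_smul {t : ℂ} (ht : t ≠ 0) (a : Fin l → ℂ) : hyp (t • a) = hyp a := by
  ext v
  rw [mem_hyp', mem_hyp', lin_smul]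
  simp [ht]

theorem lin_irred {a : Fin l → ℂ} (ha : a ≠ 0) : Irreducible (lin a) := by
  have h : lin a = sumSMulX (Finsupp.equivFunOnFinite.symm a) := by
    rw [sumSMulX, Finsupp.linearCombination_apply, Finsupp.sum_fintype _ _ (by simp)]
    simp only [lin, Finsupp.equivFunOnFinite_symm_apply_apply, smul_eq_C_mul]
  rw [h]
  obtain ⟨i, hi⟩ := Function.ne_iff.mp ha
  have hi' : a i ≠ 0 := hi
  apply irreducible_sumSMulX
  · exact ⟨i, by simpa using hi'⟩
  · intro r hr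
    have := hr i
    have h0 : r ≠ 0 := by
      rintro rfl
      simp at this
      exact hi' this
    exact h0.isUnit

theorem lin_prime {a : Fin l → ℂ} (ha : a ≠ 0) : Prime (lin a) := (lin_irred ha).prime

theorem hyp_le_of_dvd {a b : Fin l → ℂ} (h : lin a ∣ lin b) : hyp a ≤ hyp b := by
  intro v hv
  obtain ⟨c, hc⟩ := h
  rw [mem_hyp'] at hv ⊢
  rw [hc, map_mul, hv, zero_mul]

theorem lin_relPrime {a b : Fin l → ℂ} (ha : a ≠ 0) (hb : b ≠ 0) (h : hyp a ≠ hyp b) :
    IsRelPrime (lin a) (lin b) := by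
  rw [(lin_irred ha).isRelPrime_iff_not_dvd]
  intro hd
  apply h
  exact le_antisymm (hyp_le_of_dvd hd)
    (hyp_le_of_dvd (((lin_irred ha).dvd_symm (lin_irred hb) hd)))

theorem sub_aeval_mem (I : Ideal (MvPolynomial (Fin l) ℂ)) (s : Fin l → MvPolynomial (Fin l) ℂ)
    (hs : ∀ i, X i - s i ∈ I) (g : MvPolynomial (Fin l) ℂ) : g - aeval s g ∈ I := by
  induction g using MvPolynomial.induction_on with
  | C a => simp
  | add p q hp hq =>
    have := I.add_mem hp hq
    rw [map_add]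
    convert this using 1; ring
  | mul_X p i hp =>
    have := I.add_mem (I.mul_mem_right (X i) hp) (I.mul_mem_left (aeval s p) (hs i))
    rw [map_mul, aeval_X]
    convert this using 1; ring

theorem vanish_of_mem {Y : Submodule ℂ (Fin l → ℂ)} {g : MvPolynomial (Fin l) ℂ}
    (hg : g ∈ prm Y) : ∀ v ∈ Y, eval v g = 0 := by
  intro v hv
  have : prm Y ≤ RingHom.ker (eval v) := by
    rw [prm, Ideal.span_le]
    rintro f ⟨a, _, h⟩
    exact h v hv
  exact this hg

theorem exists_sub (Y : Submodule ℂ (Fin l → ℂ)) :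
    ∃ s : Fin l → MvPolynomial (Fin l) ℂ, (∀ i, X i - s i ∈ prm Y) ∧
      ∀ g : MvPolynomial (Fin l) ℂ, (∀ v ∈ Y, eval v g = 0) → aeval s g = 0 := by
  obtain ⟨Z, hZ⟩ := Y.exists_isCompl
  let π : (Fin l → ℂ) →ₗ[ℂ] (Fin l → ℂ) := Y.subtype ∘ₗ Y.projectionOnto Z hZ
  have hπ : ∀ v, π v ∈ Y := fun v => (Y.projectionOnto Z hZ v).2
  have hπ' : ∀ v ∈ Y, π v = v := fun v hv =>
    congrArg Subtype.val (Submodule.projectionOnto_apply_left hZ ⟨v, hv⟩)
  let r : Fin l → Fin l → ℂ := fun i j => π (Pi.single j 1) i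
  have hr : ∀ v i, eval v (lin (r i)) = π v i := by
    intro v i
    rw [eval_lin]
    conv_rhs => rw [pi_eq_sum_univ' v, map_sum]
    simp only [r, mul_comm, map_smul, Finset.sum_apply, Pi.smul_apply, smul_eq_mul]
  refine ⟨fun i => lin (r i), fun i => ?_, fun g hg => ?_⟩
  · apply Ideal.subset_span
    refine ⟨Pi.single i 1 - r i, by rw [lin_sub, lin_single], fun v hv => ?_⟩
    rw [map_sub, hr, hπ' v hv]; simp
  · apply MvPolynomial.funext
    intro v
    have : eval v (aeval (fun i => lin (r i)) g) = eval (π v) g := by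
      clear hg
      induction g using MvPolynomial.induction_on with
      | C a => simp
      | add p q hp hq => simp only [map_add, hp, hq]
      | mul_X p i hp => simp only [map_mul, hp, aeval_X, eval_X, hr]
    rw [this, hg _ (hπ v)]; simp

theorem mem_prm {Y : Submodule ℂ (Fin l → ℂ)} {g : MvPolynomial (Fin l) ℂ} :
    g ∈ prm Y ↔ ∀ v ∈ Y, eval v g = 0 := by
  refine ⟨vanish_of_mem, fun h => ?_⟩
  obtain ⟨s, h1, h2⟩ := exists_sub Y
  have := sub_aeval_mem _ s h1 g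
  rwa [h2 g h, sub_zero] at this

theorem prm_prime (Y : Submodule ℂ (Fin l → ℂ)) : (prm Y).IsPrime := by
  obtain ⟨s, h1, h2⟩ := exists_sub Y
  have : prm Y = RingHom.ker (aeval s : MvPolynomial (Fin l) ℂ →ₐ[ℂ] MvPolynomial (Fin l) ℂ) := by
    ext g
    rw [RingHom.mem_ker]
    refine ⟨fun h => h2 g (vanish_of_mem h), fun h => ?_⟩
    have := sub_aeval_mem _ s h1 g
    rwa [h, sub_zero] at this
  rw [this]
  exact RingHom.ker_isPrime _

theorem lin_dvd {a : Fin l → ℂ} (ha : a ≠ 0) {g : MvPolynomial (Fin l) ℂ}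
    (hg : ∀ v ∈ hyp a, eval v g = 0) : lin a ∣ g := by
  have : prm (hyp a) ≤ Ideal.span {lin a} := by
    rw [prm, Ideal.span_le]
    rintro f ⟨b, rfl, h⟩
    obtain ⟨t, rfl⟩ := smul_of_le ha (b := b) (fun v hv => mem_hyp'.2 (h v hv))
    rw [lin_smul]
    exact Ideal.mem_span_singleton.2 (Dvd.intro_left _ rfl)
  exact Ideal.mem_span_singleton.1 (this (mem_prm.2 hg))

/-- the arrangement with equations `T` -/
def arr (T : Finset (Fin l → ℂ)) : Set (Submodule ℂ (Fin l → ℂ)) := hyp '' (T : Set (Fin l → ℂ))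

@[simp] theorem arr_empty : arr (∅ : Finset (Fin l → ℂ)) = ∅ := by simp [arr]

/-- a system of equations of an arrangement -/
structure Good (T : Finset (Fin l → ℂ)) : Prop where
  ne : ∀ a ∈ T, a ≠ 0
  inj : Set.InjOn hyp (T : Set (Fin l → ℂ))

theorem Good.mono {T T' : Finset (Fin l → ℂ)} (h : Good T) (hs : T' ⊆ T) : Good T' :=
  ⟨fun a ha => h.ne a (hs ha), h.inj.mono (by exact_mod_cast hs)⟩

theorem Good.isArr {T : Finset (Fin l → ℂ)} (h : Good T) : IsArr (arr T) :=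
  ⟨T.finite_toSet.image _, by rintro _ ⟨a, ha, rfl⟩; exact finrank_hyp (h.ne a ha)⟩

theorem Good.ncard {T : Finset (Fin l → ℂ)} (h : Good T) :
    (arr T).ncard = T.card := by
  rw [arr, Set.InjOn.ncard_image h.inj, Set.ncard_coe_finset]

theorem Good.prod_dvd {T : Finset (Fin l → ℂ)} (h : Good T) {g : MvPolynomial (Fin l) ℂ}
    (hg : ∀ a ∈ T, lin a ∣ g) : ∏ a ∈ T, lin a ∣ g :=
  Finset.prod_dvd_of_isRelPrime
    (fun a ha b hb hab => lin_relPrime (h.ne a ha) (h.ne b hb) (fun e => hab (h.inj ha hb e))) hg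

theorem Good.diff [DecidableEq (Fin l → ℂ)] {T : Finset (Fin l → ℂ)} {a : Fin l → ℂ}
    (h : Good (insert a T)) (ha : a ∉ T) :
    arr (insert a T) \ {hyp a} = arr T := by
  ext H
  constructor
  · rintro ⟨⟨b, hb, rfl⟩, hn⟩
    rcases Finset.mem_insert.1 hb with rfl | hb
    · exact absurd rfl hn
    · exact ⟨b, hb, rfl⟩
  · rintro ⟨b, hb, rfl⟩
    refine ⟨⟨b, Finset.mem_insert_of_mem hb, rfl⟩, fun e => ha ?_⟩
    have := h.inj (Finset.mem_insert_of_mem hb) (Finset.mem_insert_self a T) e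
    rwa [this] at hb

theorem mem_logDer {T : Finset (Fin l → ℂ)} (h : Good T)
    {θ : Derivation ℂ (MvPolynomial (Fin l) ℂ) (MvPolynomial (Fin l) ℂ)} :
    θ ∈ logDer (arr T) ↔ ∀ a ∈ T, lin a ∣ θ (lin a) := by
  constructor
  · intro hθ a ha
    exact hθ _ ⟨a, ha, rfl⟩ a (fun v => mem_hyp')
  · rintro hθ _ ⟨a, ha, rfl⟩ b hb
    obtain ⟨t, rfl⟩ := smul_of_le (h.ne a ha) (b := b) (fun v hv => mem_hyp'.2 ((hb v).1 hv))
    rw [lin_smul, Derivation.leibniz]
    simp only [derivation_C, mul_zero, add_zero, smul_eq_mul]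
    exact mul_dvd_mul_left _ (hθ a ha)

theorem lin_dvd_det {a : Fin l → ℂ} (ha : a ≠ 0)
    (N : Matrix (Fin l) (Fin l) (MvPolynomial (Fin l) ℂ))
    (hN : ∀ k, lin a ∣ ∑ i, C (a i) * N k i) : lin a ∣ N.det := by
  obtain ⟨i, hi⟩ := Function.ne_iff.mp ha
  have hi' : a i ≠ 0 := hi
  have h1 : N.adjugate.mulVec (N.mulVec fun j => C (a j)) = N.det • fun j => C (a j) := by
    rw [Matrix.mulVec_mulVec, Matrix.adjugate_mul, Matrix.smul_mulVec, Matrix.one_mulVec]
  have h2 : lin a ∣ N.det * C (a i) := by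
    have := congrFun h1 i
    simp only [Pi.smul_apply, smul_eq_mul] at this
    rw [← this]
    show lin a ∣ ∑ k, N.adjugate i k * N.mulVec (fun j => C (a j)) k
    apply Finset.dvd_sum
    intro k _
    apply Dvd.dvd.mul_left
    have := hN k
    simpa only [Matrix.mulVec, dotProduct, mul_comm] using this
  have hu : IsUnit (C (a i) : MvPolynomial (Fin l) ℂ) := hi'.isUnit.map C
  exact hu.dvd_mul_right.1 h2

/-- Saito's criterion -/
theorem saito {T : Finset (Fin l → ℂ)} (h : Good T)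
    (M : Matrix (Fin l) (Fin l) (MvPolynomial (Fin l) ℂ)) (d : Fin l → ℕ)
    (hM : ∀ k, ∀ a ∈ T, lin a ∣ ∑ i, C (a i) * M k i)
    (hd : ∀ k i, (M k i).IsHomogeneous (d k))
    (hdet : M.det = ∏ a ∈ T, lin a) :
    FreeExp (arr T) (Multiset.map d Finset.univ.val) := by
  let θ : Fin l → logDer (arr T) := fun k =>
    ⟨mkDerivation ℂ (M k), (mem_logDer h).2 fun a ha => by
      rw [der_lin]; simpa only [mkDerivation_X] using hM k a ha⟩
  have hθ : ∀ k i, (θ k).1 (X i) = M k i := fun k i => mkDerivation_X ℂ (M k) i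
  have h0 : M.det ≠ 0 := by
    rw [hdet]
    exact Finset.prod_ne_zero_iff.2 fun a ha => (lin_irred (h.ne a ha)).ne_zero
  have hev : ∀ (g : Fin l → MvPolynomial (Fin l) ℂ) i,
      (∑ k, g k • θ k).1 (X i) = Matrix.vecMul g M i := by
    intro g i
    rw [Submodule.coe_sum]
    have : ∀ s : Finset (Fin l), (∑ k ∈ s, (g k • θ k).1) (X i)
        = ∑ k ∈ s, g k * M k i := by
      intro s
      induction s using Finset.induction_on with
      | empty => simp only [SetLike.val_smul, Finset.sum_empty, Derivation.coe_zero, Pi.zero_apply]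
      | insert k s hk ih =>
        rw [Finset.sum_insert hk, Finset.sum_insert hk, Derivation.add_apply, ih,
          Submodule.coe_smul, Derivation.smul_apply, hθ, smul_eq_mul]
    rw [this]; rfl
  have hli : LinearIndependent (MvPolynomial (Fin l) ℂ) θ := by
    rw [linearIndependent_iffₛ]
    intro g g' hg
    rw [Finsupp.linearCombination_apply, Finsupp.linearCombination_apply,
      Finsupp.sum_fintype _ _ (by simp), Finsupp.sum_fintype _ _ (by simp)] at hg
    have : Matrix.vecMul (⇑g - ⇑g') M = 0 := by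
      funext i
      rw [Matrix.sub_vecMul, Pi.sub_apply, ← hev, ← hev, hg]; simp only [AddSubmonoidClass.coe_finsetSum, SetLike.val_smul, sub_self, Pi.zero_apply]
    exact DFunLike.coe_injective (sub_eq_zero.1 (Matrix.eq_zero_of_vecMul_eq_zero h0 this))
  have hsp : ⊤ ≤ Submodule.span (MvPolynomial (Fin l) ℂ) (Set.range θ) := by
    intro η _
    let y : Fin l → MvPolynomial (Fin l) ℂ := fun i => η.1 (X i)
    have hc : ∀ k, M.det ∣ M.transpose.cramer y k := by
      intro k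
      rw [Matrix.cramer_transpose_apply, hdet]
      apply h.prod_dvd
      intro a ha
      apply lin_dvd_det (h.ne a ha)
      intro j
      by_cases hj : j = k
      · subst hj
        simp only [Matrix.updateRow_self]
        have := (mem_logDer h).1 η.2 a ha
        rwa [der_lin] at this
      · simp only [Matrix.updateRow_ne hj]
        exact hM j a ha
    choose g hg using hc
    have h1 := Matrix.mulVec_cramer M.transpose y
    rw [Matrix.det_transpose, Matrix.mulVec_transpose] at h1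
    have h2 : M.transpose.cramer y = M.det • g := funext hg
    rw [h2, Matrix.smul_vecMul] at h1
    have h3 : η = ∑ k, g k • θ k := by
      apply Subtype.ext
      apply derivation_ext
      intro i
      rw [hev]
      have := congrFun h1 i
      simp only [Pi.smul_apply, smul_eq_mul] at this
      exact (mul_left_cancel₀ h0 this).symm
    rw [h3]
    exact Submodule.sum_mem _ fun k _ =>
      Submodule.smul_mem _ _ (Submodule.subset_span ⟨k, rfl⟩)
  refine ⟨l, Module.Basis.mk hli hsp, d, fun k i => ?_, rfl⟩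
  rw [Module.Basis.mk_apply, hθ]
  exact hd k i

end

end Pool.Agent.MP_761c50_ag.SS

namespace Pool.Agent.MP_761c50_ag.SS

open MvPolynomial

noncomputable section

theorem free_empty (l : ℕ) : FreeExp (∅ : Set (Submodule ℂ (Fin l → ℂ))) (Multiset.replicate l 0) := by
  have h := saito (T := (∅ : Finset (Fin l → ℂ))) ⟨by simp, by simp⟩ 1 (fun _ => 0) (by simp only [Finset.notMem_empty, IsEmpty.forall_iff, implies_true])
    (fun k i => by
      by_cases h : k = i
      · subst h; simpa using isHomogeneous_one (Fin l) ℂ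
      · simpa [h] using isHomogeneous_zero (Fin l) ℂ 0) (by simp)
  simpa only [arr_empty, Multiset.map_const', Finset.card_val, Finset.card_univ, Fintype.card_fin] using h

theorem prod_lin_hom {l : ℕ} (T : Finset (Fin l → ℂ)) :
    (∏ a ∈ T, lin a).IsHomogeneous T.card := by
  have := IsHomogeneous.prod T (fun a => lin a) (fun _ => 1) (fun a _ => lin_hom a)
  simpa using this

theorem euler_sum {l : ℕ} (a : Fin l → ℂ) : lin a ∣ ∑ i, C (a i) * X i := dvd_rfl

theorem good_one {l : ℕ} {a : Fin l → ℂ} (ha : a ≠ 0) : Good {a} :=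
  ⟨by simpa using ha, by simp⟩

theorem free1 : FreeExp (arr {(![1] : Fin 1 → ℂ)}) {1} := by
  have h := saito (T := {(![1] : Fin 1 → ℂ)}) (good_one (by simp)) (Matrix.of fun _ i => X i)
    (fun _ => 1) (fun k a _ => euler_sum a) (fun k i => isHomogeneous_X ℂ i) (by simp [lin])
  simpa using h

theorem ind1 : IndFree 1 (arr {(![1] : Fin 1 → ℂ)}) := by
  have hd : arr {(![1] : Fin 1 → ℂ)} \ {hyp ![1]} = ∅ := by simp only [Nat.succ_eq_add_one, Nat.reduceAdd, arr, Finset.coe_singleton, Set.image_singleton, sdiff_self, Set.bot_eq_empty]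
  refine IndFree.step 0 _ (hyp ![1]) 0 (Multiset.replicate 1 0) (Multiset.replicate 0 0)
    (good_one (by simp)).isArr (by simp [arr]) (fun v w _ => Subsingleton.elim _ _) ?_ ?_ ?_ ?_ ?_
    (by simp)
  · ext v
    simp only [LinearMap.range_zero, Submodule.mem_bot, mem_hyp]
    constructor
    · rintro rfl; simp
    · intro h; funext i; fin_cases i; simpa using h
  · rw [hd]; exact IndFree.empty _
  · rw [hd, Set.image_empty]; exact IndFree.empty _
  · rw [hd]; exact free_empty _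
  · rw [hd, Set.image_empty]; exact free_empty _

theorem free2 {T : Finset (Fin 2 → ℂ)} (h : Good T) (hn : T.Nonempty) :
    FreeExp (arr T) {1, T.card - 1} := by
  classical
  obtain ⟨a, ha⟩ := hn
  have hQ := prod_lin_hom (T.erase a)
  have h1 := saito h !![X 0, X 1; -C (a 1) * ∏ b ∈ T.erase a, lin b, C (a 0) * ∏ b ∈ T.erase a, lin b]
    ![1, (T.erase a).card] ?_ ?_ ?_
  · rw [Finset.card_erase_of_mem ha, Fin.univ_val_map] at h1
    exact h1
  · intro k b hb
    fin_cases k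
    · simp only [lin, Fin.sum_univ_two, Fin.isValue, neg_mul, Fin.zero_eta, Matrix.of_apply, Matrix.cons_val', Matrix.cons_val_fin_one, Matrix.cons_val_zero, Matrix.cons_val_one, dvd_refl]
    · by_cases e : b = a
      · subst e
        simp only [Fin.sum_univ_two]
        convert dvd_zero _
        simp only [Fin.isValue, neg_mul, Fin.mk_one, Matrix.of_apply, Matrix.cons_val', Matrix.cons_val_zero, Matrix.cons_val_fin_one, Matrix.cons_val_one, mul_neg]; ring
      · have := Finset.dvd_prod_of_mem lin (Finset.mem_erase.2 ⟨e, hb⟩)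
        simp only [Fin.sum_univ_two]
        exact dvd_add ((this.mul_left _).mul_left _) ((this.mul_left _).mul_left _)
  · intro k i
    fin_cases k <;> fin_cases i
    · exact isHomogeneous_X ℂ _
    · exact isHomogeneous_X ℂ _
    · simpa using (hQ.C_mul (a 1)).neg
    · simpa using hQ.C_mul (a 0)
  · rw [Matrix.det_fin_two_of, ← Finset.mul_prod_erase T lin ha]
    simp only [lin, Fin.sum_univ_two]
    ring

theorem det2 {a b : Fin 2 → ℂ} (ha : a ≠ 0) (hb : b ≠ 0) (h : hyp b ≠ hyp a) :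
    a 0 * b 1 - a 1 * b 0 ≠ 0 := by
  intro e
  apply h
  have key : ∀ {a b : Fin 2 → ℂ}, a ≠ 0 → a 0 * b 1 - a 1 * b 0 = 0 → hyp a ≤ hyp b := by
    intro a b ha e v hv
    rw [mem_hyp, Fin.sum_univ_two] at hv ⊢
    by_cases h0 : a 0 = 0
    · have h1 : a 1 ≠ 0 := fun h1 => ha (by funext i; fin_cases i <;> simpa)
      apply mul_left_cancel₀ h1
      linear_combination b 1 * hv - v 0 * e
    · apply mul_left_cancel₀ h0
      linear_combination b 0 * hv + v 1 * e
  exact le_antisymm (key hb (by linear_combination -e)) (key ha e)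

theorem ind2 (T : Finset (Fin 2 → ℂ)) (h : Good T) : IndFree 2 (arr T) := by
  classical
  induction T using Finset.induction_on with
  | empty => rw [arr_empty]; exact IndFree.empty _
  | insert a T haT ih =>
    have hT : Good T := h.mono (Finset.subset_insert a T)
    have ha : a ≠ 0 := h.ne a (Finset.mem_insert_self a T)
    have ha' : a 0 ≠ 0 ∨ a 1 ≠ 0 := by
      by_contra hc
      push Not at hc
      exact ha (by funext i; fin_cases i <;> simp [hc.1, hc.2])
    let φ : (Fin 1 → ℂ) →ₗ[ℂ] (Fin 2 → ℂ) :=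
      { toFun := fun v => ![-a 1 * v 0, a 0 * v 0]
        map_add' := fun v w => by funext i; fin_cases i <;> simp <;> ring
        map_smul' := fun t v => by funext i; fin_cases i <;> simp <;> ring }
    have hinj : Function.Injective φ := by
      intro v w e
      have e0 : -a 1 * v 0 = -a 1 * w 0 := congrFun e 0
      have e1 : a 0 * v 0 = a 0 * w 0 := congrFun e 1
      funext i; fin_cases i
      rcases ha' with h0 | h0
      · exact mul_left_cancel₀ h0 e1
      · exact mul_left_cancel₀ (neg_ne_zero.2 h0) e0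
    have hr : LinearMap.range φ = hyp a := by
      apply Submodule.eq_of_le_of_finrank_eq
      · rintro _ ⟨v, rfl⟩
        rw [mem_hyp, Fin.sum_univ_two]
        show a 0 * (-a 1 * v 0) + a 1 * (a 0 * v 0) = 0
        ring
      · have := finrank_hyp ha
        rw [LinearMap.finrank_range_of_inj hinj, Module.finrank_fin_fun]; omega
    have hd := h.diff haT
    rcases T.eq_empty_or_nonempty with rfl | hn
    · rw [arr_empty] at hd
      refine IndFree.step 1 _ (hyp a) φ (Multiset.replicate 2 0) (Multiset.replicate 1 0)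
        h.isArr ⟨a, by simp, rfl⟩ hinj hr ?_ ?_ ?_ ?_ (by decide)
      · rw [hd]; exact IndFree.empty _
      · rw [hd, Set.image_empty]; exact IndFree.empty _
      · rw [hd]; exact free_empty _
      · rw [hd, Set.image_empty]; exact free_empty _
    · have hc : ∀ b ∈ T, Submodule.comap φ (hyp b) = hyp ![1] := by
        intro b hb
        have hne : hyp b ≠ hyp a := fun e => haT (by
          have := h.inj (Finset.mem_insert_of_mem hb) (Finset.mem_insert_self a T) e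
          rwa [this] at hb)
        have := det2 ha (hT.ne b hb) hne
        ext v
        rw [Submodule.mem_comap, mem_hyp, mem_hyp, Fin.sum_univ_two, Fin.sum_univ_one]
        show b 0 * (-a 1 * v 0) + b 1 * (a 0 * v 0) = 0 ↔ 1 * v 0 = 0
        constructor
        · intro e
          apply mul_left_cancel₀ this
          linear_combination e
        · intro e
          linear_combination (a 0 * b 1 - a 1 * b 0) * e
      have hi : Submodule.comap φ '' arr T = arr {![1]} := by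
        ext K
        constructor
        · rintro ⟨_, ⟨b, hb, rfl⟩, rfl⟩
          exact ⟨_, by simp, (hc b hb).symm⟩
        · rintro ⟨b, hb, rfl⟩
          obtain ⟨c, hc'⟩ := hn
          have : b = ![1] := by simpa using hb
          exact ⟨_, ⟨c, hc', rfl⟩, by rw [hc c hc', this]⟩
      refine IndFree.step 1 _ (hyp a) φ {1, T.card - 1} {1}
        h.isArr ⟨a, by simp, rfl⟩ hinj hr ?_ ?_ ?_ ?_ (by simp)
      · rw [hd]; exact ih hT
      · rw [hd, hi]; exact ind1
      · rw [hd]; exact free2 hT hn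
      · rw [hd, hi]; exact free1

theorem dvd_hc {l k : ℕ} {q : MvPolynomial (Fin l) ℂ} (hq : q.IsHomogeneous k) (n : ℕ)
    (e : MvPolynomial (Fin l) ℂ) : q ∣ homogeneousComponent n (q * e) := by
  conv_rhs => rw [← sum_homogeneousComponent e, Finset.mul_sum, map_sum]
  apply Finset.dvd_sum
  intro j _
  rw [homogeneousComponent_of_mem (hq.mul (homogeneousComponent_isHomogeneous j e))]
  split_ifs
  · exact Dvd.intro _ rfl
  · exact dvd_zero _

/-- value of the derivation with row `r` on the linear form `a` -/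
def ap (r : Fin 3 → MvPolynomial (Fin 3) ℂ) (a : Fin 3 → ℂ) : MvPolynomial (Fin 3) ℂ :=
  ∑ i, C (a i) * r i

theorem terao {T1 T2 : Finset (Fin 3 → ℂ)} (g1 : Good T1) (g2 : Good T2)
    (h2 : ∀ b ∈ T2, b 0 = 1) {b : Fin 3 → ℂ} (hb : b 0 = 1) (hbT : b ∉ T2)
    (hp : ∀ b' ∈ T2, ∃ a ∈ T1, ∃ t : ℂ, b - b' = t • a)
    (r : Fin 3 → MvPolynomial (Fin 3) ℂ) (r1 : ∀ a ∈ T1, lin a ∣ ap r a)
    (r2 : ∀ a ∈ T2, lin a ∣ ap r a) :
    ∃ p e, ap r b = lin b * p + (∏ a ∈ T2, lin a) * e := by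
  classical
  choose! cls hcls t ht using hp
  let s : Fin 3 → MvPolynomial (Fin 3) ℂ := ![X 0 - lin b, X 1, X 2]
  have hs : ∀ v : Fin 3 → ℂ, aeval s (lin v) = lin v - C (v 0) * lin b := by
    intro v
    conv_lhs => rw [lin]
    conv_rhs => rw [lin]
    simp only [s, Fin.isValue, aeval_eq_bind₁, Fin.sum_univ_three, map_add, map_mul, algHom_C, algebraMap_eq, bind₁_X_right, Matrix.cons_val_zero, Matrix.cons_val_one, Matrix.cons_val]; ring
  have hm : ∀ g, lin b ∣ g - aeval s g := fun g => Ideal.mem_span_singleton.1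
    (sub_aeval_mem _ s (fun i => by
      fin_cases i <;> simp [s]) g)
  have ht0 : ∀ b' ∈ T2, t b' ≠ 0 := by
    intro b' hb' e
    have := ht b' hb'
    rw [e, zero_smul, sub_eq_zero] at this
    exact hbT (this ▸ hb')
  have hψ : ∀ b' ∈ T2, aeval s (lin b') = lin ((-t b') • cls b') := by
    intro b' hb'
    rw [hs, h2 b' hb', neg_smul, ← ht b' hb', neg_sub, lin_sub]; simp
  have hdiv : ∀ a ∈ T1, ∏ b' ∈ T2 with cls b' = a, aeval s (lin b') ∣ aeval s (ap r b) := by
    intro a ha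
    obtain ⟨pa, hpa⟩ := r1 a ha
    have : ∏ b' ∈ T2 with cls b' = a, lin b' ∣ ap r b - lin b * pa := by
      apply (g2.mono (Finset.filter_subset _ _)).prod_dvd
      intro b' hb'
      obtain ⟨hb', e⟩ := Finset.mem_filter.1 hb'
      obtain ⟨p', hp'⟩ := r2 b' hb'
      have e1 : b = b' + t b' • a := by rw [← e, ← ht b' hb']; simp
      have e2 : ap r b = ap r b' + C (t b') * ap r a := by
        conv_lhs => rw [e1]
        simp only [ap, Pi.add_apply, Pi.smul_apply, smul_eq_mul, C_add, C_mul, Fin.sum_univ_three, Fin.isValue]; ring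
      have e3 : lin b = lin b' + C (t b') * lin a := by
        conv_lhs => rw [e1]
        rw [lin_add, lin_smul]
      exact ⟨p' - pa, by rw [e2, e3, hp', hpa]; ring⟩
    have h3 := map_dvd (aeval s) this
    rw [map_prod, map_sub, map_mul, hs, hb] at h3
    simpa only [aeval_eq_bind₁, C_1, one_mul, sub_self, zero_mul, sub_zero] using h3
  have hall : ∏ a ∈ T1, ∏ b' ∈ T2 with cls b' = a, aeval s (lin b') ∣ aeval s (ap r b) := by
    apply Finset.prod_dvd_of_isRelPrime _ hdiv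
    intro a ha a' ha' hne
    apply IsRelPrime.prod_left
    intro c hc
    apply IsRelPrime.prod_right
    intro c' hc'
    obtain ⟨hc, e⟩ := Finset.mem_filter.1 hc
    obtain ⟨hc', e'⟩ := Finset.mem_filter.1 hc'
    rw [hψ c hc, hψ c' hc', e, e']
    have n1 := neg_ne_zero.2 (ht0 c hc)
    have n2 := neg_ne_zero.2 (ht0 c' hc')
    apply lin_relPrime (smul_ne_zero n1 (g1.ne a ha)) (smul_ne_zero n2 (g1.ne a' ha'))
    rw [hyp_smul n1, hyp_smul n2]
    exact fun e => hne (g1.inj ha ha' e)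
  rw [Finset.prod_fiberwise_of_maps_to hcls, ← map_prod] at hall
  obtain ⟨e, he⟩ := hall
  obtain ⟨p1, hp1⟩ := hm (ap r b)
  obtain ⟨p2, hp2⟩ := hm (∏ a ∈ T2, lin a)
  exact ⟨p1 - p2 * e, e, by linear_combination hp1 + he - e * hp2⟩

/-- the shape of a supersolvable arrangement of rank at most three -/
structure Shape (T1 T2 : Finset (Fin 3 → ℂ)) : Prop where
  g1 : Good T1
  h1 : ∀ a ∈ T1, a 0 = 0
  h2 : ∀ b ∈ T2, b 0 = 1
  hp : ∀ b ∈ T2, ∀ b' ∈ T2, b ≠ b' → ∃ a ∈ T1, ∃ t : ℂ, b - b' = t • a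

theorem Shape.mono {T1 T2 T3 : Finset (Fin 3 → ℂ)} (h : Shape T1 T2) (hs : T3 ⊆ T2) :
    Shape T1 T3 :=
  ⟨h.g1, h.h1, fun b hb => h.h2 b (hs hb), fun b hb b' hb' => h.hp b (hs hb) b' (hs hb')⟩

theorem ne_of_one {b : Fin 3 → ℂ} (hb : b 0 = 1) : b ≠ 0 := by
  rintro rfl; simp at hb

theorem Shape.disj {T1 T2 : Finset (Fin 3 → ℂ)} (h : Shape T1 T2) : Disjoint T1 T2 := by
  rw [Finset.disjoint_left]
  intro a h1 h2
  have := h.h1 a h1
  rw [h.h2 a h2] at this
  exact one_ne_zero this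

theorem Shape.good [DecidableEq (Fin 3 → ℂ)] {T1 T2 : Finset (Fin 3 → ℂ)} (h : Shape T1 T2) :
    Good (T1 ∪ T2) := by
  have hne : ∀ a ∈ T1 ∪ T2, a ≠ 0 := by
    intro a ha
    rcases Finset.mem_union.1 ha with ha | ha
    · exact h.g1.ne a ha
    · exact ne_of_one (h.h2 a ha)
  refine ⟨hne, fun a ha b hb e => ?_⟩
  obtain ⟨t, ht⟩ := smul_of_le (hne a ha) e.le
  obtain ⟨t', ht'⟩ := smul_of_le (hne b hb) e.ge
  have e0 : b 0 = t * a 0 := by rw [ht]; rfl
  have e0' : a 0 = t' * b 0 := by rw [ht']; rfl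
  rcases Finset.mem_union.1 ha with ha | ha <;> rcases Finset.mem_union.1 hb with hb | hb
  · exact h.g1.inj ha hb e
  · rw [h.h1 a ha, h.h2 b hb] at e0; simp at e0
  · rw [h.h2 a ha, h.h1 b hb] at e0'; simp at e0'
  · rw [h.h2 a ha, h.h2 b hb, mul_one] at e0
    rw [ht, ← e0, one_smul]

theorem Shape.g2 {T1 T2 : Finset (Fin 3 → ℂ)} (h : Shape T1 T2) : Good T2 := by
  classical
  exact h.good.mono Finset.subset_union_right

theorem exists_row {T1 : Finset (Fin 3 → ℂ)} (n : ℕ) (p q : MvPolynomial (Fin 3) ℂ)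
    (hp : p.IsHomogeneous n) (hq : q.IsHomogeneous n)
    (h0 : ∀ a ∈ T1, lin a ∣ C (a 1) * p + C (a 2) * q) (T2 : Finset (Fin 3 → ℂ))
    (h : Shape T1 T2) :
    ∃ c : MvPolynomial (Fin 3) ℂ, c.IsHomogeneous n ∧ ∀ b ∈ T2, lin b ∣ ap ![c, p, q] b := by
  classical
  induction T2 using Finset.induction_on with
  | empty => exact ⟨0, isHomogeneous_zero _ _ _, by simp⟩
  | insert b T2 hb ih =>
    have h' := h.mono (Finset.subset_insert b T2)
    obtain ⟨c, hc, hc'⟩ := ih h'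
    have hb1 := h.h2 b (Finset.mem_insert_self _ _)
    obtain ⟨p', e, he⟩ := terao h.g1 h'.g2 h'.h2 hb1 hb
      (fun b' hb' => h.hp b (Finset.mem_insert_self _ _) b' (Finset.mem_insert_of_mem hb')
        (fun e => hb (e ▸ hb'))) ![c, p, q]
      (fun a ha => by simpa only [ap, Fin.sum_univ_three, Fin.isValue, h.h1 a ha, C_0, Matrix.cons_val_zero, zero_mul, Matrix.cons_val_one, zero_add, Matrix.cons_val] using h0 a ha) hc'
    have hh : (ap ![c, p, q] b).IsHomogeneous n := by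
      simp only [ap, Fin.sum_univ_three]
      exact ((hc.C_mul _).add (hp.C_mul _)).add (hq.C_mul _)
    have hE := dvd_hc (prod_lin_hom T2) n e
    have hE' := dvd_hc (lin_hom b) n p'
    have h5 := congrArg (homogeneousComponent n) he
    rw [homogeneousComponent_of_mem hh, if_pos rfl, map_add] at h5
    refine ⟨c - homogeneousComponent n ((∏ a ∈ T2, lin a) * e),
      hc.sub (homogeneousComponent_isHomogeneous _ _), fun v hv => ?_⟩
    have h6 : ap ![c - homogeneousComponent n ((∏ a ∈ T2, lin a) * e), p, q] v =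
        ap ![c, p, q] v - homogeneousComponent n ((∏ a ∈ T2, lin a) * e) := by
      simp only [ap, Fin.sum_univ_three, Fin.isValue, h.h2 v hv, C_1, Matrix.cons_val_zero, one_mul, Matrix.cons_val_one, Matrix.cons_val]; ring
    rw [h6]
    rcases Finset.mem_insert.1 hv with rfl | hv
    · rw [h5, add_sub_cancel_right]; exact hE'
    · exact dvd_sub (hc' v hv) ((Finset.dvd_prod_of_mem lin hv).trans hE)

theorem free3 [DecidableEq (Fin 3 → ℂ)] {T1 T2 : Finset (Fin 3 → ℂ)} (h : Shape T1 T2)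
    (hn : T1.Nonempty) : FreeExp (arr (T1 ∪ T2)) {1, T1.card - 1, T2.card} := by
  obtain ⟨a, ha⟩ := hn
  have hQ := prod_lin_hom (T1.erase a)
  have h0 : ∀ b ∈ T1, lin b ∣ C (b 1) * (C (-a 2) * ∏ b ∈ T1.erase a, lin b) +
      C (b 2) * (C (a 1) * ∏ b ∈ T1.erase a, lin b) := by
    intro b hb
    by_cases e : b = a
    · subst e
      convert dvd_zero _
      simp only [Fin.isValue, C_neg, neg_mul, mul_neg]; ring
    · have := Finset.dvd_prod_of_mem lin (Finset.mem_erase.2 ⟨e, hb⟩)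
      exact dvd_add ((this.mul_left _).mul_left _) ((this.mul_left _).mul_left _)
  obtain ⟨c, hc, hc'⟩ := exists_row _ _ _ (hQ.C_mul (-a 2)) (hQ.C_mul (a 1)) h0 T2 h
  have h1 := saito h.good !![X 0, X 1, X 2; c, C (-a 2) * ∏ b ∈ T1.erase a, lin b,
    C (a 1) * ∏ b ∈ T1.erase a, lin b; ∏ b ∈ T2, lin b, 0, 0]
    ![1, (T1.erase a).card, T2.card] ?_ ?_ ?_
  · rw [Finset.card_erase_of_mem ha, Fin.univ_val_map] at h1
    exact h1
  · intro k b hb
    fin_cases k
    · simp only [lin, Fin.sum_univ_three, Fin.isValue, C_neg, neg_mul, Fin.zero_eta, Matrix.of_apply, Matrix.cons_val', Matrix.cons_val_fin_one, Matrix.cons_val_zero, Matrix.cons_val_one, Matrix.cons_val, dvd_refl]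
    · rcases Finset.mem_union.1 hb with hb | hb
      · simpa only [Fin.isValue, C_neg, neg_mul, Fin.mk_one, Matrix.of_apply, Matrix.cons_val', Matrix.cons_val_fin_one, Matrix.cons_val_one, Matrix.cons_val_zero, Fin.sum_univ_three, h.h1 b hb, C_0, zero_mul, mul_neg, zero_add, Matrix.cons_val] using h0 b hb
      · simpa only [Fin.isValue, C_neg, neg_mul, Fin.mk_one, Matrix.of_apply, Matrix.cons_val', Matrix.cons_val_fin_one, Matrix.cons_val_one, Matrix.cons_val_zero, Fin.sum_univ_three, mul_neg, Matrix.cons_val, ap] using hc' b hb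
    · rcases Finset.mem_union.1 hb with hb | hb
      · simp only [Fin.isValue, C_neg, neg_mul, Fin.reduceFinMk, Matrix.of_apply, Matrix.cons_val', Matrix.cons_val_fin_one, Matrix.cons_val, Matrix.cons_val_one, Fin.sum_univ_three, h.h1 b hb, C_0, Matrix.cons_val_zero, zero_mul, mul_zero, add_zero, dvd_zero]
      · simpa only [Fin.isValue, C_neg, neg_mul, Fin.reduceFinMk, Matrix.of_apply, Matrix.cons_val', Matrix.cons_val_fin_one, Matrix.cons_val, Matrix.cons_val_one, Fin.sum_univ_three, Matrix.cons_val_zero, mul_zero, add_zero] using (Finset.dvd_prod_of_mem lin hb).mul_left (C (b 0))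
  · intro k i
    fin_cases k <;> fin_cases i
    · exact isHomogeneous_X ℂ _
    · exact isHomogeneous_X ℂ _
    · exact isHomogeneous_X ℂ _
    · exact hc
    · exact hQ.C_mul _
    · exact hQ.C_mul _
    · exact prod_lin_hom T2
    · exact isHomogeneous_zero _ _ _
    · exact isHomogeneous_zero _ _ _
  · rw [Matrix.det_fin_three, Finset.prod_union h.disj, ← Finset.mul_prod_erase T1 lin ha]
    have : lin a = C (a 1) * X 1 + C (a 2) * X 2 := by
      simp [lin, Fin.sum_univ_three, h.h1 a ha]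
    rw [this]
    simp only [Fin.isValue, C_neg, neg_mul, Matrix.of_apply, Matrix.cons_val', Matrix.cons_val_zero, Matrix.cons_val_fin_one, Matrix.cons_val_one, mul_neg, Matrix.cons_val, mul_zero, sub_self, zero_add, add_zero, sub_neg_eq_add]; ring

theorem tail_facts {a b : Fin 3 → ℂ} (ha : a 0 = 0) (hb : b 0 = 0)
    (h : hyp (![a 1, a 2] : Fin 2 → ℂ) = hyp ![b 1, b 2]) : hyp a = hyp b := by
  ext v
  have : (![v 1, v 2] : Fin 2 → ℂ) ∈ hyp (![a 1, a 2] : Fin 2 → ℂ) ↔
      (![v 1, v 2] : Fin 2 → ℂ) ∈ hyp (![b 1, b 2] : Fin 2 → ℂ) := by rw [h]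
  simpa only [mem_hyp, Fin.sum_univ_succ, Fin.isValue, ha, zero_mul, Fin.succ_zero_eq_one, Finset.univ_unique, Fin.default_eq_zero, Finset.sum_singleton, Fin.succ_one_eq_two, zero_add, hb, Nat.succ_eq_add_one, Nat.reduceAdd, Matrix.cons_val_zero, Matrix.cons_val_succ, Matrix.cons_val_fin_one, Finset.sum_const, Finset.card_singleton, one_smul] using this

theorem tail_ne {a : Fin 3 → ℂ} (ha : a 0 = 0) (h : a ≠ 0) : (![a 1, a 2] : Fin 2 → ℂ) ≠ 0 := by
  intro e
  apply h
  funext i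
  fin_cases i
  · exact ha
  · exact congrFun e 0
  · exact congrFun e 1

theorem ind3a (T : Finset (Fin 3 → ℂ)) (h : Good T) (h1 : ∀ a ∈ T, a 0 = 0) :
    IndFree 3 (arr T) := by
  classical
  induction T using Finset.induction_on with
  | empty => rw [arr_empty]; exact IndFree.empty _
  | insert a T haT ih =>
    have hT : Good T := h.mono (Finset.subset_insert a T)
    have h1T : ∀ b ∈ T, b 0 = 0 := fun b hb => h1 b (Finset.mem_insert_of_mem hb)
    have ha : a ≠ 0 := h.ne a (Finset.mem_insert_self a T)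
    have ha0 := h1 a (Finset.mem_insert_self a T)
    have ha' : a 1 ≠ 0 ∨ a 2 ≠ 0 := by
      by_contra hc
      push Not at hc
      exact ha (by funext i; fin_cases i <;> simp [hc.1, hc.2, ha0])
    let φ : (Fin 2 → ℂ) →ₗ[ℂ] (Fin 3 → ℂ) :=
      { toFun := fun v => ![v 0, -a 2 * v 1, a 1 * v 1]
        map_add' := fun v w => by funext i; fin_cases i <;> simp <;> ring
        map_smul' := fun t v => by funext i; fin_cases i <;> simp <;> ring }
    have hinj : Function.Injective φ := by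
      intro v w e
      have e0 : -a 2 * v 1 = -a 2 * w 1 := congrFun e 1
      have e1 : a 1 * v 1 = a 1 * w 1 := congrFun e 2
      funext i; fin_cases i
      · exact congrFun e 0
      · rcases ha' with h0 | h0
        · exact mul_left_cancel₀ h0 e1
        · exact mul_left_cancel₀ (neg_ne_zero.2 h0) e0
    have hr : LinearMap.range φ = hyp a := by
      apply Submodule.eq_of_le_of_finrank_eq
      · rintro _ ⟨v, rfl⟩
        rw [mem_hyp, Fin.sum_univ_three]
        show a 0 * v 0 + a 1 * (-a 2 * v 1) + a 2 * (a 1 * v 1) = 0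
        rw [ha0]; ring
      · have := finrank_hyp ha
        rw [LinearMap.finrank_range_of_inj hinj, Module.finrank_fin_fun]; omega
    have hd := h.diff haT
    rcases T.eq_empty_or_nonempty with rfl | hn
    · rw [arr_empty] at hd
      refine IndFree.step 2 _ (hyp a) φ (Multiset.replicate 3 0) (Multiset.replicate 2 0)
        h.isArr ⟨a, by simp, rfl⟩ hinj hr ?_ ?_ ?_ ?_ (by decide)
      · rw [hd]; exact IndFree.empty _
      · rw [hd, Set.image_empty]; exact IndFree.empty _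
      · rw [hd]; exact free_empty _
      · rw [hd, Set.image_empty]; exact free_empty _
    · have hc : ∀ b ∈ T, Submodule.comap φ (hyp b) = hyp ![0, 1] := by
        intro b hb
        have hne : hyp b ≠ hyp a := fun e => haT (by
          have := h.inj (Finset.mem_insert_of_mem hb) (Finset.mem_insert_self a T) e
          rwa [this] at hb)
        have : a 1 * b 2 - a 2 * b 1 ≠ 0 := det2 (tail_ne ha0 ha)
          (tail_ne (h1T b hb) (hT.ne b hb)) (fun e => hne (tail_facts (h1T b hb) ha0 e))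
        ext v
        rw [Submodule.mem_comap, mem_hyp, mem_hyp, Fin.sum_univ_three, Fin.sum_univ_two]
        show b 0 * v 0 + b 1 * (-a 2 * v 1) + b 2 * (a 1 * v 1) = 0 ↔ 0 * v 0 + 1 * v 1 = 0
        rw [h1T b hb]
        constructor
        · intro e
          apply mul_left_cancel₀ this
          linear_combination e
        · intro e
          linear_combination (a 1 * b 2 - a 2 * b 1) * e
      have hi : Submodule.comap φ '' arr T = arr {![0, 1]} := by
        ext K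
        constructor
        · rintro ⟨_, ⟨b, hb, rfl⟩, rfl⟩
          exact ⟨_, by simp, (hc b hb).symm⟩
        · rintro ⟨b, hb, rfl⟩
          obtain ⟨c, hc'⟩ := hn
          have : b = ![0, 1] := by simpa using hb
          exact ⟨_, ⟨c, hc', rfl⟩, by rw [hc c hc', this]⟩
      have g01 : Good {(![0, 1] : Fin 2 → ℂ)} := good_one (by simp)
      have hf := free3 (T1 := T) (T2 := ∅) ⟨hT, h1T, by simp, by simp⟩ hn
      rw [Finset.union_empty] at hf
      refine IndFree.step 2 _ (hyp a) φ {1, T.card - 1, 0} {1, 0}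
        h.isArr ⟨a, by simp, rfl⟩ hinj hr ?_ ?_ ?_ ?_ ?_
      · rw [hd]; exact ih hT h1T
      · rw [hd, hi]; exact ind2 _ g01
      · rw [hd]; exact hf
      · rw [hd, hi]; exact free2 g01 (by simp)
      · exact Multiset.cons_le_cons _ (Multiset.le_cons_self _ _)

theorem ind3 [DecidableEq (Fin 3 → ℂ)] {T1 : Finset (Fin 3 → ℂ)} (hn : T1.Nonempty)
    (T2 : Finset (Fin 3 → ℂ)) (h : Shape T1 T2) : IndFree 3 (arr (T1 ∪ T2)) := by
  classical
  induction T2 using Finset.induction_on with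
  | empty => rw [Finset.union_empty]; exact ind3a _ h.g1 h.h1
  | insert b T2 hb ih =>
    have h' := h.mono (Finset.subset_insert b T2)
    have hb1 := h.h2 b (Finset.mem_insert_self _ _)
    have hg := h.good
    rw [Finset.union_insert] at hg ⊢
    have hbT : b ∉ T1 ∪ T2 := by
      intro hc
      rcases Finset.mem_union.1 hc with hc | hc
      · have := h.h1 b hc
        rw [hb1] at this
        exact one_ne_zero this
      · exact hb hc
    let φ : (Fin 2 → ℂ) →ₗ[ℂ] (Fin 3 → ℂ) :=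
      { toFun := fun v => ![-b 1 * v 0 - b 2 * v 1, v 0, v 1]
        map_add' := fun v w => by funext i; fin_cases i <;> simp; ring
        map_smul' := fun t v => by funext i; fin_cases i <;> simp; ring }
    have hinj : Function.Injective φ := by
      intro v w e
      funext i; fin_cases i
      · exact congrFun e 1
      · exact congrFun e 2
    have hφ : ∀ v, φ v ∈ hyp b := by
      intro v
      rw [mem_hyp, Fin.sum_univ_three]
      show b 0 * (-b 1 * v 0 - b 2 * v 1) + b 1 * v 0 + b 2 * v 1 = 0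
      rw [hb1]; ring
    have hr : LinearMap.range φ = hyp b := by
      apply Submodule.eq_of_le_of_finrank_eq
      · rintro _ ⟨v, rfl⟩
        exact hφ v
      · have := finrank_hyp (ne_of_one hb1)
        rw [LinearMap.finrank_range_of_inj hinj, Module.finrank_fin_fun]; omega
    have hd := hg.diff hbT
    let tl : (Fin 3 → ℂ) → (Fin 2 → ℂ) := fun a => ![a 1, a 2]
    have hc : ∀ a ∈ T1, Submodule.comap φ (hyp a) = hyp (tl a) := by
      intro a ha
      ext v
      rw [Submodule.mem_comap, mem_hyp, mem_hyp, Fin.sum_univ_three, Fin.sum_univ_two]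
      show a 0 * (-b 1 * v 0 - b 2 * v 1) + a 1 * v 0 + a 2 * v 1 = 0 ↔ a 1 * v 0 + a 2 * v 1 = 0
      rw [h.h1 a ha, zero_mul, zero_add]
    have hi : Submodule.comap φ '' arr (T1 ∪ T2) = arr (T1.image tl) := by
      ext K
      constructor
      · rintro ⟨_, ⟨c, hc', rfl⟩, rfl⟩
        rcases Finset.mem_union.1 hc' with hc' | hc'
        · exact ⟨_, Finset.mem_image_of_mem tl hc', (hc c hc').symm⟩
        · have hne : b ≠ c := fun e => hb (e ▸ hc')
          obtain ⟨a, ha, t, ht⟩ := h.hp b (Finset.mem_insert_self _ _) c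
            (Finset.mem_insert_of_mem hc') hne
          have ht0 : t ≠ 0 := by
            rintro rfl
            rw [zero_smul, sub_eq_zero] at ht
            exact hne ht
          refine ⟨_, Finset.mem_image_of_mem tl ha, ?_⟩
          rw [← hc a ha]
          ext v
          have e := congrArg (eval (φ v)) (congrArg lin ht)
          rw [lin_sub, lin_smul, map_sub, map_mul, eval_C, mem_hyp'.1 (hφ v)] at e
          rw [Submodule.mem_comap, Submodule.mem_comap, mem_hyp', mem_hyp']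
          constructor
          · intro e'; linear_combination -e - t * e'
          · intro e'
            apply mul_left_cancel₀ ht0
            linear_combination -e - e'
      · rintro ⟨_, hc', rfl⟩
        obtain ⟨a, ha, rfl⟩ := Finset.mem_image.1 hc'
        exact ⟨_, ⟨a, Finset.mem_union_left _ ha, rfl⟩, hc a ha⟩
    have gt : Good (T1.image tl) := by
      constructor
      · intro c hc'
        obtain ⟨a, ha, rfl⟩ := Finset.mem_image.1 hc'
        exact tail_ne (h.h1 a ha) (h.g1.ne a ha)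
      · intro c hc' c2 hc2 e
        obtain ⟨a, ha, rfl⟩ := Finset.mem_image.1 hc'
        obtain ⟨a2, ha2, rfl⟩ := Finset.mem_image.1 hc2
        rw [h.g1.inj ha ha2 (tail_facts (h.h1 a ha) (h.h1 a2 ha2) e)]
    have hcard : (T1.image tl).card = T1.card :=
      Finset.card_image_of_injOn fun a ha a2 ha2 e =>
        h.g1.inj ha ha2 (tail_facts (h.h1 a ha) (h.h1 a2 ha2) (congrArg hyp e))
    refine IndFree.step 2 _ (hyp b) φ {1, T1.card - 1, T2.card} {1, T1.card - 1}
      hg.isArr ⟨b, by simp, rfl⟩ hinj hr ?_ ?_ ?_ ?_ ?_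
    · rw [hd]; exact ih h'
    · rw [hd, hi]; exact ind2 _ gt
    · rw [hd]; exact free3 h' hn
    · rw [hd, hi, ← hcard]; exact free2 gt (hn.image _)
    · exact Multiset.cons_le_cons _ (by simp)

theorem top_of_lt {H W : Submodule ℂ (Fin 3 → ℂ)} (hH : Module.finrank ℂ H + 1 = 3) (h : H < W) :
    W = ⊤ := by
  apply Submodule.eq_top_of_finrank_eq
  have h1 := Submodule.finrank_lt_finrank_of_lt h
  have h2 := W.finrank_le
  rw [Module.finrank_fin_fun] at h2 ⊢
  omega

/-- the common line of the pencil -/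
def axis : Submodule ℂ (Fin 3 → ℂ) := Submodule.span ℂ {Pi.single 0 1}

theorem mem_axis {v : Fin 3 → ℂ} : v ∈ axis ↔ v 1 = 0 ∧ v 2 = 0 := by
  rw [axis, Submodule.mem_span_singleton]
  constructor
  · rintro ⟨t, rfl⟩; simp
  · rintro ⟨h1, h2⟩
    exact ⟨v 0, by funext i; fin_cases i <;> simp [h1, h2]⟩

theorem axis_le {a : Fin 3 → ℂ} (ha : a 0 = 0) : axis ≤ hyp a := by
  intro v hv
  rw [mem_axis] at hv
  simp [mem_hyp, Fin.sum_univ_three, ha, hv.1, hv.2]

theorem Shape.pair {T1 T2 : Finset (Fin 3 → ℂ)} (h : Shape T1 T2) {b c : Fin 3 → ℂ} (hb : b ∈ T2)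
    (hc : c ∈ T2) (hne : b ≠ c) : ∃ a ∈ T1, hyp b ⊓ hyp c ≤ hyp a := by
  obtain ⟨a, ha, t, ht⟩ := h.hp b hb c hc hne
  have ht0 : t ≠ 0 := by
    rintro rfl
    rw [zero_smul, sub_eq_zero] at ht
    exact hne ht
  refine ⟨a, ha, fun v hv => ?_⟩
  have e := congrArg (eval v) (congrArg lin ht)
  rw [lin_sub, lin_smul, map_sub, map_mul, eval_C, mem_hyp'.1 hv.1, mem_hyp'.1 hv.2] at e
  rw [mem_hyp']
  apply mul_left_cancel₀ ht0
  linear_combination -e

theorem supersolvable [DecidableEq (Fin 3 → ℂ)] {T1 T2 : Finset (Fin 3 → ℂ)} (h : Shape T1 T2)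
    (hx : ![0, 1, 0] ∈ T1) (hu : ![0, 0, 1] ∈ T1) (hw : ![1, 0, 0] ∈ T2) :
    Supersolvable (arr (T1 ∪ T2)) := by
  have m1 : ∀ a ∈ T1, hyp a ∈ arr (T1 ∪ T2) := fun a ha => ⟨a, Finset.mem_union_left _ ha, rfl⟩
  have m2 : ∀ a ∈ T2, hyp a ∈ arr (T1 ∪ T2) := fun a ha => ⟨a, Finset.mem_union_right _ ha, rfl⟩
  have lt : ⊤ ∈ Lat (arr (T1 ∪ T2)) := ⟨∅, by simp, by simp⟩
  have lh : ∀ H ∈ arr (T1 ∪ T2), H ∈ Lat (arr (T1 ∪ T2)) := fun H hH => ⟨{H}, by simpa, by simp⟩
  have hb : sInf (arr (T1 ∪ T2)) = ⊥ := by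
    rw [eq_bot_iff]
    intro v hv
    rw [Submodule.mem_sInf] at hv
    have e1 := hv _ (m1 _ hx)
    have e2 := hv _ (m1 _ hu)
    have e0 := hv _ (m2 _ hw)
    simp only [mem_hyp, Fin.sum_univ_three] at e0 e1 e2
    funext i; fin_cases i
    · simpa using e0
    · simpa using e1
    · simpa using e2
  have la : axis ∈ Lat (arr (T1 ∪ T2)) := by
    refine ⟨{hyp ![0, 1, 0], hyp ![0, 0, 1]}, ?_, ?_⟩
    · rintro H (rfl | rfl)
      · exact m1 _ hx
      · exact m1 _ hu
    · ext v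
      simp only [mem_axis, Fin.isValue, Nat.succ_eq_add_one, Nat.reduceAdd, sInf_insert, sInf_singleton, Submodule.mem_inf, mem_hyp, Fin.sum_univ_three, Matrix.cons_val_zero, zero_mul, Matrix.cons_val_one, one_mul, zero_add, Matrix.cons_val, add_zero]
  have fa : Module.finrank ℂ axis = 1 := finrank_span_singleton (by simp)
  have fx : Module.finrank ℂ (hyp (![0, 1, 0] : Fin 3 → ℂ)) + 1 = 3 := finrank_hyp (by simp)
  have mh : Modular (arr (T1 ∪ T2)) (hyp ![0, 1, 0]) := by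
    refine ⟨lh _ (m1 _ hx), fun Z _ => ?_⟩
    rcases (le_sup_left : hyp ![0, 1, 0] ≤ hyp ![0, 1, 0] ⊔ Z).eq_or_lt with e | e
    · rw [← e]; exact lh _ (m1 _ hx)
    · rw [top_of_lt fx e]; exact lt
  have ma : Modular (arr (T1 ∪ T2)) axis := by
    refine ⟨la, ?_⟩
    rintro _ ⟨B, hB, rfl⟩
    by_cases h0 : axis ≤ sInf B
    · rw [sup_eq_right.2 h0]; exact ⟨B, hB, rfl⟩
    · rw [le_sInf_iff] at h0
      push Not at h0
      obtain ⟨H, hH, hn⟩ := h0
      obtain ⟨b, hb', rfl⟩ := hB hH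
      have hb2 : b ∈ T2 := by
        rcases Finset.mem_union.1 hb' with hc | hc
        · exact absurd (axis_le (h.h1 b hc)) hn
        · exact hc
      by_cases h1 : ∀ K ∈ B, K = hyp b
      · have : sInf B = hyp b := le_antisymm (sInf_le hH) (le_sInf fun K hK => (h1 K hK).ge)
        rw [this, top_of_lt (finrank_hyp (h.g2.ne b hb2)) (right_lt_sup.2 hn)]
        exact lt
      · push Not at h1
        obtain ⟨K, hK, hKn⟩ := h1
        obtain ⟨c, hc', rfl⟩ := hB hK
        have : ∃ a ∈ T1, sInf B ≤ hyp a := by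
          rcases Finset.mem_union.1 hc' with hc | hc
          · exact ⟨c, hc, sInf_le hK⟩
          · obtain ⟨a, ha, hle⟩ := h.pair hb2 hc (fun e => hKn (by rw [e]))
            exact ⟨a, ha, (le_inf (sInf_le hH) (sInf_le hK)).trans hle⟩
        obtain ⟨a, ha, hle⟩ := this
        rcases (le_sup_left : axis ≤ axis ⊔ sInf B).eq_or_lt with e | e
        · rw [← e]; exact la
        · have h3 := Submodule.finrank_lt_finrank_of_lt e
          have h4 := finrank_hyp (h.g1.ne a ha)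
          rw [Submodule.eq_of_le_of_finrank_le (sup_le (axis_le (h.h1 a ha)) hle) (by omega)]
          exact lh _ (m1 a ha)
  refine ⟨3, fun i => if i = 0 then ⊤ else if i = 1 then hyp ![0, 1, 0] else
    if i = 2 then axis else ⊥, fun i hi => ?_, fun i hi => ?_, by simp only [OfNat.ofNat_ne_zero, ↓ reduceIte, OfNat.ofNat_ne_one, Nat.succ_ne_self, hb]⟩
  · interval_cases i
    · exact ⟨⟨lt, fun Z _ => by simpa using lt⟩, by simp⟩
    · exact ⟨mh, fx⟩
    · exact ⟨ma, by simp [fa]⟩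
    · exact ⟨⟨⟨_, subset_rfl, hb.symm⟩, fun Z hZ => by simpa only [OfNat.ofNat_ne_zero, ↓ reduceIte, OfNat.ofNat_ne_one, Nat.succ_ne_self, bot_le, sup_of_le_right] using hZ⟩, by simp⟩
  · interval_cases i
    · simp
    · exact axis_le rfl
    · simp only [Nat.reduceAdd, OfNat.ofNat_ne_zero, ↓ reduceIte, OfNat.ofNat_ne_one, Nat.succ_ne_self, bot_le]

end

end Pool.Agent.MP_761c50_ag.SS

namespace Pool.Agent.MP_761c50_ag.SS

open MvPolynomial

noncomputable section

open Classical in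
/-- equations of the planes through the first axis -/
def T1 (Λ : Finset ℂ) : Finset (Fin 3 → ℂ) :=
  insert ![0, 0, 1] ((insert 0 (insert 1 (insert (-1) Λ))).image fun ρ : ℂ => ![0, 1, -ρ])

open Classical in
/-- equations of the other planes -/
def T2 : Finset (Fin 3 → ℂ) := {![1, 0, 0], ![1, 1, 0], ![1, -1, 0], ![1, 0, 1], ![1, 0, -1]}

theorem mem_T1 {Λ : Finset ℂ} {a : Fin 3 → ℂ} : a ∈ T1 Λ ↔ a = ![0, 0, 1] ∨ a = ![0, 1, 0] ∨
    a = ![0, 1, -1] ∨ a = ![0, 1, 1] ∨ ∃ ρ ∈ Λ, a = ![0, 1, -ρ] := by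
  simp only [T1, Nat.succ_eq_add_one, Nat.reduceAdd, Finset.image_insert, neg_zero, neg_neg, Finset.mem_insert, Finset.mem_image, eq_comm]

theorem mem_T2 {a : Fin 3 → ℂ} : a ∈ T2 ↔ a = ![1, 0, 0] ∨ a = ![1, 1, 0] ∨
    a = ![1, -1, 0] ∨ a = ![1, 0, 1] ∨ a = ![1, 0, -1] := by
  simp only [T2, Nat.succ_eq_add_one, Nat.reduceAdd, Finset.mem_insert, Finset.mem_singleton]

theorem T1_form {Λ : Finset ℂ} {a : Fin 3 → ℂ} (h : a ∈ T1 Λ) :
    a = ![0, 0, 1] ∨ ∃ t : ℂ, a = ![0, 1, t] := by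
  rcases mem_T1.1 h with h | h | h | h | ⟨ρ, _, h⟩
  · exact Or.inl h
  all_goals exact Or.inr ⟨_, h⟩

theorem shape (Λ : Finset ℂ) : Shape (T1 Λ) T2 := by
  have hne : ∀ a ∈ T1 Λ, a ≠ 0 := by
    intro a ha
    rcases T1_form ha with rfl | ⟨t, rfl⟩ <;> simp
  refine ⟨⟨hne, fun a ha b hb e => ?_⟩, fun a ha => ?_, fun b hb => ?_, fun b hb c hc hbc => ?_⟩
  · obtain ⟨s, hs⟩ := smul_of_le (hne a ha) e.le
    obtain ⟨s', hs'⟩ := smul_of_le (hne b hb) e.ge
    rcases T1_form ha with rfl | ⟨t, rfl⟩ <;> rcases T1_form hb with rfl | ⟨t', rfl⟩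
    · rfl
    · simpa using congrFun hs 1
    · simpa using congrFun hs' 1
    · have : s = 1 := by simpa using (congrFun hs 1).symm
      rw [hs, this, one_smul]
  · rcases T1_form ha with rfl | ⟨t, rfl⟩ <;> rfl
  · rcases mem_T2.1 hb with rfl | rfl | rfl | rfl | rfl <;> rfl
  · have k1 : ∀ v : Fin 3 → ℂ, v 0 = 0 → v 1 = 0 → ∃ a ∈ T1 Λ, ∃ t : ℂ, v = t • a :=
      fun v h0 h1 => ⟨![0, 0, 1], by simp [mem_T1], v 2, by
        funext i; fin_cases i <;> simp [h0, h1]⟩
    have k2 : ∀ v : Fin 3 → ℂ, v 0 = 0 → v 2 = 0 → ∃ a ∈ T1 Λ, ∃ t : ℂ, v = t • a :=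
      fun v h0 h1 => ⟨![0, 1, 0], by simp only [mem_T1, Nat.succ_eq_add_one, Nat.reduceAdd, Matrix.vecCons_inj, one_ne_zero, zero_ne_one, and_true, and_self, and_false, zero_eq_neg, true_and, exists_eq_right, false_or, true_or, or_true], v 1, by
        funext i; fin_cases i <;> simp [h0, h1]⟩
    have k3 : ∀ v : Fin 3 → ℂ, v 0 = 0 → v 2 = v 1 → ∃ a ∈ T1 Λ, ∃ t : ℂ, v = t • a :=
      fun v h0 h1 => ⟨![0, 1, 1], by simp [mem_T1], v 1, by
        funext i; fin_cases i <;> simp [h0, h1]⟩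
    have k4 : ∀ v : Fin 3 → ℂ, v 0 = 0 → v 2 = -v 1 → ∃ a ∈ T1 Λ, ∃ t : ℂ, v = t • a :=
      fun v h0 h1 => ⟨![0, 1, -1], by simp [mem_T1], v 1, by
        funext i; fin_cases i <;> simp [h0, h1]⟩
    rcases mem_T2.1 hb with rfl | rfl | rfl | rfl | rfl <;>
      rcases mem_T2.1 hc with rfl | rfl | rfl | rfl | rfl <;>
      first
        | (apply k1 <;> (simp; done))
        | (apply k2 <;> (simp; done))
        | (apply k3 <;> (simp; done))
        | (apply k4 <;> simp)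

theorem fam_eq [DecidableEq (Fin 3 → ℂ)] (Λ : Finset ℂ) : famB3 Λ = arr (T1 Λ ∪ T2) := by
  ext H
  constructor
  · rintro ⟨a, ha, h⟩
    refine ⟨a, ?_, by ext v; rw [h, mem_hyp']⟩
    rw [Finset.mem_coe, Finset.mem_union, mem_T1, mem_T2]
    simp only [Set.mem_insert_iff, Set.mem_singleton_iff] at ha
    rcases ha with (e | e | e | e | e | e | e | e | e) | e <;> simp only [e, true_or, or_true]
  · rintro ⟨a, ha, rfl⟩
    refine ⟨a, ?_, fun v => mem_hyp'⟩
    rw [Finset.mem_coe, Finset.mem_union, mem_T1, mem_T2] at ha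
    simp only [Set.mem_insert_iff, Set.mem_singleton_iff]
    tauto

theorem card_T1 {Λ : Finset ℂ} (hΛ : ∀ ρ ∈ Λ, ρ ≠ 0 ∧ ρ ≠ 1 ∧ ρ ≠ -1) :
    (T1 Λ).card = Λ.card + 4 := by
  classical
  have n : (1 : ℂ) ≠ -1 := by norm_num
  have h1 : (-1 : ℂ) ∉ Λ := fun h => (hΛ _ h).2.2 rfl
  have h2 : (1 : ℂ) ∉ insert (-1) Λ := by
    simpa [n] using fun h => (hΛ _ h).2.1 rfl
  have h3 : (0 : ℂ) ∉ insert 1 (insert (-1) Λ) := by
    simpa only [Finset.mem_insert, zero_ne_one, zero_eq_neg, one_ne_zero, false_or, imp_false] using fun h => (hΛ _ h).1 rfl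
  unfold T1
  rw [Finset.card_insert_of_notMem (by simp only [Finset.image_insert, neg_zero, neg_neg, Nat.succ_eq_add_one, Nat.reduceAdd, Finset.mem_insert, Matrix.vecCons_inj, zero_ne_one, one_ne_zero, and_true, and_self, and_false, false_and, Finset.mem_image, exists_const, or_self, not_false_eq_true]), Finset.card_image_of_injective _
    (fun a b e => by simpa using congrFun e 2)]
  convert_to (insert 0 (insert 1 (insert (-1) Λ))).card + 1 = _
  rw [Finset.card_insert_of_notMem h3, Finset.card_insert_of_notMem h2,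
    Finset.card_insert_of_notMem h1]

theorem card_T2 : T2.card = 5 := by
  have n : (1 : ℂ) ≠ -1 := by norm_num
  unfold T2
  rw [Finset.card_insert_of_notMem (by simp only [Nat.succ_eq_add_one, Nat.reduceAdd, Finset.mem_insert, Matrix.vecCons_inj, zero_ne_one, and_true, and_false, zero_eq_neg, one_ne_zero, Finset.mem_singleton, or_self, not_false_eq_true]), Finset.card_insert_of_notMem (by simp only [Nat.succ_eq_add_one, Nat.reduceAdd, Finset.mem_insert, Matrix.vecCons_inj, n, and_true, and_false, one_ne_zero, zero_ne_one, and_self, Finset.mem_singleton, zero_eq_neg, or_self, not_false_eq_true]),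
    Finset.card_insert_of_notMem (by simp), Finset.card_insert_of_notMem (by simp [n]),
    Finset.card_singleton]

theorem lin3 (a b c : ℂ) : lin ![a, b, c] = C a * X 0 + C b * X 1 + C c * X 2 := by
  simp [lin, Fin.sum_univ_three]

theorem lin_form [DecidableEq (Fin 3 → ℂ)] {Λ : Finset ℂ} {a : Fin 3 → ℂ} (h : a ∈ T1 Λ ∪ T2) :
    lin a ∈ MP761c50.NonCont.B3 ∨ ∃ ρ ∈ Λ, lin a = X 1 - C ρ * X 2 := by
  rw [Finset.mem_union, mem_T1, mem_T2] at h
  rcases h with (rfl | rfl | rfl | rfl | ⟨ρ, hρ, rfl⟩) | rfl | rfl | rfl | rfl | rfl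
  rotate_left 4
  · exact Or.inr ⟨ρ, hρ, by simp only [Nat.succ_eq_add_one, Nat.reduceAdd, lin3, C_0, Fin.isValue, zero_mul, C_1, one_mul, zero_add, C_neg, neg_mul, sub_eq_add_neg]⟩
  all_goals
    left
    simp only [MP761c50.NonCont.B3, Fin.isValue, sub_eq_add_neg, Nat.succ_eq_add_one, Nat.reduceAdd, lin3, C_1, one_mul, C_0, zero_mul, add_zero, List.mem_cons, left_eq_add, neg_eq_zero, X_ne_zero, X_inj, zero_ne_one, Fin.reduceEq, List.not_mem_nil, or_false, false_or, true_or, add_eq_left, add_right_inj, add_eq_right, or_true, C_neg, neg_mul, neg_inj, add_left_inj, or_self, zero_add, right_eq_add, one_ne_zero]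

theorem not_le [DecidableEq (Fin 3 → ℂ)] {Λ : Finset ℂ} (hΛ : ∀ ρ ∈ Λ, ρ ≠ 0 ∧ ρ ≠ 1 ∧ ρ ≠ -1)
    (hc : 3 ≤ Λ.card) : ¬ symb (arr (T1 Λ ∪ T2)) 3 ≤ singI (arr (T1 Λ ∪ T2)) ^ 2 := by
  intro h
  refine MP761c50.NonCont.not_mem_sq Λ hΛ _ ?_ (h ?_)
  · intro g hg v hG hF
    have h2 : ∃ b ∈ T2, v ∈ hyp b := by
      simp only [MP761c50.NonCont.G, map_mul, mul_eq_zero] at hG
      rcases hG with (((e | e) | e) | e) | e
      · exact ⟨![1, 0, 0], by simp [mem_T2], by simpa [mem_hyp', lin3] using e⟩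
      · exact ⟨![1, -1, 0], by simp [mem_T2], by simpa only [mem_hyp', lin3, Nat.succ_eq_add_one, Nat.reduceAdd, C_1, Fin.isValue, one_mul, C_neg, neg_mul, C_0, zero_mul, add_zero, map_add, eval_X, map_neg, sub_eq_add_neg] using e⟩
      · exact ⟨![1, 1, 0], by simp [mem_T2], by simpa only [mem_hyp', lin3, Nat.succ_eq_add_one, Nat.reduceAdd, C_1, Fin.isValue, one_mul, C_0, zero_mul, add_zero, map_add, eval_X] using e⟩
      · exact ⟨![1, 0, -1], by simp [mem_T2], by simpa only [mem_hyp', lin3, Nat.succ_eq_add_one, Nat.reduceAdd, C_1, Fin.isValue, one_mul, C_0, zero_mul, add_zero, C_neg, neg_mul, map_add, eval_X, map_neg, sub_eq_add_neg] using e⟩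
      · exact ⟨![1, 0, 1], by simp [mem_T2], by simpa only [mem_hyp', lin3, Nat.succ_eq_add_one, Nat.reduceAdd, C_1, Fin.isValue, one_mul, C_0, zero_mul, add_zero, map_add, eval_X] using e⟩
    have h1 : ∃ a ∈ T1 Λ, v ∈ hyp a := by
      simp only [MP761c50.NonCont.F1, map_mul, map_prod, mul_eq_zero,
        Finset.prod_eq_zero_iff] at hF
      rcases hF with (((e | e) | e) | e) | ⟨ρ, hρ, e⟩
      · exact ⟨![0, 1, 0], by simp only [mem_T1, Nat.succ_eq_add_one, Nat.reduceAdd, Matrix.vecCons_inj, one_ne_zero, zero_ne_one, and_true, and_self, and_false, zero_eq_neg, true_and, exists_eq_right, false_or, true_or, or_true], by simpa [mem_hyp', lin3] using e⟩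
      · exact ⟨![0, 0, 1], by simp [mem_T1], by simpa [mem_hyp', lin3] using e⟩
      · exact ⟨![0, 1, -1], by simp [mem_T1], by simpa only [mem_hyp', lin3, Nat.succ_eq_add_one, Nat.reduceAdd, C_0, Fin.isValue, zero_mul, C_1, one_mul, zero_add, C_neg, neg_mul, map_add, eval_X, map_neg, sub_eq_add_neg] using e⟩
      · exact ⟨![0, 1, 1], by simp [mem_T1], by simpa only [mem_hyp', lin3, Nat.succ_eq_add_one, Nat.reduceAdd, C_0, Fin.isValue, zero_mul, C_1, one_mul, zero_add, map_add, eval_X] using e⟩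
      · exact ⟨![0, 1, -ρ], mem_T1.2 (Or.inr (Or.inr (Or.inr (Or.inr ⟨ρ, hρ, rfl⟩)))),
          by simpa only [mem_hyp', lin3, Nat.succ_eq_add_one, Nat.reduceAdd, C_0, Fin.isValue, zero_mul, C_1, one_mul, zero_add, C_neg, neg_mul, map_add, eval_X, map_neg, map_mul, eval_C, sub_eq_add_neg] using e⟩
    obtain ⟨a, ha, hva⟩ := h1
    obtain ⟨b, hb, hvb⟩ := h2
    have ha' : a ∈ T1 Λ ∪ T2 := Finset.mem_union_left _ ha
    have hb' : b ∈ T1 Λ ∪ T2 := Finset.mem_union_right _ hb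
    have hne : hyp a ≠ hyp b := fun e => Finset.disjoint_left.1 (shape Λ).disj ha
      ((shape Λ).good.inj ha' hb' e ▸ hb)
    simp only [singI, Submodule.mem_iInf] at hg
    exact vanish_of_mem (hg _ ⟨_, ⟨a, ha', rfl⟩, _, ⟨b, hb', rfl⟩, hne, rfl⟩) v ⟨hva, hvb⟩
  · simp only [symb, Submodule.mem_iInf]
    rintro _ ⟨_, ⟨a, ha, rfl⟩, _, ⟨b, hb, rfl⟩, hne, rfl⟩
    refine MP761c50.NonCont.mem_cube Λ _ hΛ hc (lin_form ha) (lin_form hb) (fun e => hne ?_)
      (Ideal.subset_span ⟨a, rfl, fun v hv => mem_hyp'.1 hv.1⟩)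
      (Ideal.subset_span ⟨b, rfl, fun v hv => mem_hyp'.1 hv.2⟩)
    ext v
    rw [mem_hyp', mem_hyp', e]

theorem main :
    ∀ Λ : Finset ℂ, (∀ ρ ∈ Λ, ρ ≠ 0 ∧ ρ ≠ 1 ∧ ρ ≠ -1) → 3 ≤ Λ.card →
      IsArr (famB3 Λ) ∧ (famB3 Λ).ncard = Λ.card + 9 ∧ Supersolvable (famB3 Λ) ∧
        IndFree 3 (famB3 Λ) ∧ ¬ symb (famB3 Λ) 3 ≤ singI (famB3 Λ) ^ 2 := by
  classical
  intro Λ hΛ hc
  rw [fam_eq]
  refine ⟨(shape Λ).good.isArr, ?_, supersolvable (shape Λ) (by simp only [Nat.succ_eq_add_one, Nat.reduceAdd, mem_T1, Matrix.vecCons_inj, one_ne_zero, zero_ne_one, and_true, and_self, and_false, zero_eq_neg, true_and, exists_eq_right, false_or, true_or, or_true]) (by simp [mem_T1])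
    (by simp [mem_T2]), ind3 ⟨![0, 0, 1], by simp [mem_T1]⟩ _ (shape Λ), not_le hΛ hc⟩
  rw [(shape Λ).good.ncard, Finset.card_union_of_disjoint (shape Λ).disj, card_T1 hΛ, card_T2]

end

end Pool.Agent.MP_761c50_ag.SS

end
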